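import Pool.Agent.P.MP_dd457d_ag.Bcv.SP

/-! Good ratios are stable under roots of powers of the order of the field. -/

set_option autoImplicit false

noncomputable section

namespace Pool.Agent.Bcv

open Pool.Agent.Pav

theorem Good.root {Q : ℕ} {z c : ℂ} (h : Good Q z) {m i : ℕ} (hm : m ≠ 0) (hQ : Q ≠ 0)
    (hc : c ^ m = (Q : ℂ) ^ (i * m)) (g : ℕ) : Good Q (c / (Q : ℂ) ^ g * z) := by
  rintro e he ⟨l, E, μ, hl, hE, hμ, h1⟩
  have hl0 : (0 : ℚ) < l := by exact_mod_cast hl.pos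
  have hl1 : (l : ℂ) ≠ 0 := by exact_mod_cast hl.ne_zero
  have hQ1 : (Q : ℂ) ≠ 0 := by exact_mod_cast hQ
  have h2 : (Q : ℂ) ^ e = (l : ℂ) ^ E := by exact_mod_cast hE
  refine h (e * m) (mul_ne_zero he hm) ⟨l, E * m, μ * l ^ g / l ^ i, hl,
    by rw [pow_mul, hE, pow_mul], by positivity, ?_⟩
  have h3 : c ^ e * z ^ e = (μ : ℂ) ^ E * ((l : ℂ) ^ E) ^ g := by
    rw [← h1, ← h2, ← pow_mul, mul_comm e g, pow_mul, ← mul_pow, ← mul_pow, mul_right_comm,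
      div_mul_cancel₀ _ (pow_ne_zero _ hQ1)]
  have h4 : (c ^ e) ^ m = (((l : ℂ) ^ E) ^ i) ^ m := by
    rw [← h2, ← pow_mul, mul_comm, pow_mul, hc]
    ring
  push_cast
  rw [div_pow, eq_div_iff (by positivity)]
  calc z ^ (e * m) * ((l : ℂ) ^ i) ^ (E * m) = (c ^ e * z ^ e) ^ m := by
        rw [mul_pow, h4]
        ring
    _ = _ := by
        rw [h3]
        ring

theorem SP.smul_root {W : Type*} [AddCommGroup W] [Module ℂ W] {B : Submodule ℂ W} {Q : ℕ}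
    {x : ℕ → W} {c : ℂ} {m i : ℕ} (hm : m ≠ 0) (hQ : Q ≠ 0) (hc : c ^ m = (Q : ℂ) ^ (i * m))
    (g : ℕ) (h : x ∈ SP B Q) : (fun n => (c / (Q : ℂ) ^ g) ^ n • x n) ∈ SP B Q := by
  let L : (ℕ → W) →ₗ[ℂ] ℕ → W :=
    LinearMap.pi fun n => (c / (Q : ℂ) ^ g) ^ n • LinearMap.proj n
  refine (Submodule.span_le (p := (SP B Q).comap L)).2 ?_ h
  rintro _ ⟨z, w, hw, rfl⟩
  have := SP.geo (B := B) _ (hw.imp_right fun h => h.root hm hQ hc g)
  refine (congrArg (· ∈ SP B Q) (funext fun n => ?_)).mp this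
  simp only [L, LinearMap.pi_apply, LinearMap.smul_apply, LinearMap.proj_apply, smul_smul, mul_pow]

end Pool.Agent.Bcv
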