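import Pool.Agent.P.MP_2ce3e7_ag.Abt.Defs
import Pool.Agent.P.MP_2ce3e7_ag.Abt.Good

/-! The calculus of compositions. -/

set_option autoImplicit false
set_option linter.unusedSectionVars false

noncomputable section

namespace Pool.Agent.Abt

open Function Pool.Agent.Bav Pool.Agent.Bcv Pool.Agent.Bav.Geo

theorem pw_inter {V W : Type*} [AddCommGroup V] [Module ℂ V] [AddCommGroup W] [Module ℂ W]
    {a : Module.End ℂ V} {b : Module.End ℂ W} {ψ : V →ₗ[ℂ] W} (h : ∀ x, b (ψ x) = ψ (a x))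
    (n : ℕ) (x : V) : ((b - 1) ^ n) (ψ x) = ψ (((a - 1) ^ n) x) := by
  induction n with
  | zero => rfl
  | succ n ih =>
    rw [pow_succ', pow_succ', Module.End.mul_apply, Module.End.mul_apply, ih, LinearMap.sub_apply,
      LinearMap.sub_apply, h, map_sub]
    rfl

variable {σ k ι κ X : Type} [Field k] [IsAlgClosed k] {I : Ideal (MvPolynomial σ k)} [Fintype σ]
  [Fintype ι] [Fintype κ] {Γ : Geo I X} {A : Type} [AddCommGroup A] {Q : ℕ}

theorem push_graph_inj {φ : (ι → X) → κ → X} (h : Γ.RegM φ) (x : G I ι) :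
    Γ.pushM (fun t => t ∘ Sum.inl) (Γ.pushM (fun t => Sum.elim t (φ t)) x) = x :=
  (Γ.pushM_comp ((Γ.regM_rm id).elim h) (Γ.regM_rm _) x).trans (Γ.pushM_id x)

namespace AB

variable (D : AB Γ A Q) {u v : (ι → X) → A}

theorem hE (u : (ι → X) → A) : (Γ.twF fun t => D.h (u t)) = D.E u := by
  simp only [AB.E, D.hh]

theorem P_push {w : (κ → X) → A} (hw : D.Rg w) {φ : (ι → X) → κ → X} (h : Γ.RegM φ) (n : ℕ)
    (x : G I ι) : ((D.E w - 1) ^ n) (Γ.pushM φ x) =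
      Γ.pushM φ (((D.E (fun t => w (φ t)) - 1) ^ n) x) :=
  pw_inter (Γ.twF_pushM (hw ()) h) n x

theorem P_left (h : D.Rg u) (n : ℕ) (x : G I ι) (y : G I κ) :
    ((D.E (fun t : ι ⊕ κ → X => u (t ∘ Sum.inl)) - 1) ^ n) (boxG x y) =
      boxG (((D.E u - 1) ^ n) x) y :=
  pw_inter (ψ := boxG.flip y) (fun z => Γ.twF_box_left (h ()) z y) n x

theorem P_right (h : D.Rg u) (n : ℕ) (x : G I κ) (y : G I ι) :
    ((D.E (fun t : κ ⊕ ι → X => u (t ∘ Sum.inr)) - 1) ^ n) (boxG x y) =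
      boxG x (((D.E u - 1) ^ n) y) :=
  pw_inter (ψ := boxG x) (fun z => Γ.twF_box_right (h ()) x z) n y

theorem nil (h : D.Rg u) : (D.E u - 1) ^ (D.g + 1) = 0 := by
  ext1 x
  have h0 : D.Rg fun t : ι ⊕ Unit → X => D.r (t (.inr ())) - u (t ∘ Sum.inl) :=
    (AG.rg_r _).sub (h.comp (Γ.regM_rm _))
  have r1 := (Γ.regM_rm id).elim h
  have rp := Γ.regF_proj (Sum.inr () : ι ⊕ Unit)
  have h1 := pw_inter (Γ.twF_pushM rp r1) (D.g + 1) x
  have h2 := pw_inter (ψ := boxG x) (fun z => Γ.twF_box_right (Γ.regF_proj ()) x z) (D.g + 1) D.one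
  have h3 : Γ.twF (fun s : Unit → X => Γ.p (s ())) = shG 1 :=
    (Γ.twF_proj ()).trans (congrArg shG (funext fun _ => rfl))
  rw [h3, AG.one, D.top, map_zero] at h2
  have h4 : Commute ((Γ.twF (fun t : ι ⊕ Unit → X => Γ.p (t (.inr ()))) - 1) ^ (D.g + 1))
      (lg (Γ.twF fun t : ι ⊕ Unit → X => D.h (D.r (t (.inr ())) - u (t ∘ Sum.inl))) ^ D.g) :=
    ((h0.h.unip.comm_lg (Γ.twF_comm rp h0.h)).sub_left (Commute.one_left _)).pow_pow _ _
  have h5 := LinearMap.congr_fun h4 (boxG x D.one)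
  rw [Module.End.mul_apply, Module.End.mul_apply, AG.diag h, map_smul] at h5
  erw [h1, h2] at h5
  rw [map_zero, smul_eq_zero_iff_right D.hc] at h5
  rw [← push_graph_inj h (((D.E u - 1) ^ (D.g + 1)) x)]
  erw [h5]
  exact map_zero _

theorem lgE (h : D.Rg u) : lg (D.E u) ^ D.g = (D.E u - 1) ^ D.g := lg_pow_top (D.nil h)

theorem diag (h : D.Rg u) (x : G I ι) :
    ((D.E (fun t : ι ⊕ Unit → X => D.r (t (.inr ())) - u (t ∘ Sum.inl)) - 1) ^ D.g)
      (boxG x D.one) = D.c • Γ.pushM (fun t => Sum.elim t fun _ => D.j (u t)) x := by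
  rw [← D.lgE ((AG.rg_r _).sub (h.comp (Γ.regM_rm _))), ← D.hE]
  exact AG.diag h x

theorem neg (h : D.Rg u) : (D.E (fun t => -u t) - 1) ^ D.g = (D.E u - 1) ^ D.g := by
  ext1 x
  have h1 : D.Rg fun t : ι ⊕ Unit → X => D.r (t (.inr ())) := AG.rg_r _
  have h0 := h1.sub (h.comp (Γ.regM_rm Sum.inl))
  have h2 := D.P_right (AG.rg_r (D := D.toAG) ()) D.g x D.one
  have h3 := D.pt
  rw [D.hE, D.lgE (AG.rg_r _)] at h3
  rw [AG.one, h3, map_smul, Γ.box_point] at h2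
  have h4 := (((Γ.twF_comm (h1 ()) (h0 ())).sub_left (Commute.one_left _)).sub_right
    (Commute.one_right _)).pow_pow D.g D.g
  have h5 := LinearMap.congr_fun h4 (boxG x D.one)
  rw [Module.End.mul_apply, Module.End.mul_apply] at h5
  have r0 := Γ.regM_const (ι := ι) fun _ : Unit => D.j 0
  erw [D.diag h, h2, map_smul, map_smul, D.P_push h1 ((Γ.regM_rm id).elim h),
    D.P_push h0 ((Γ.regM_rm id).elim r0)] at h5
  have h6 := congrArg (Γ.pushM fun t => t ∘ Sum.inl) (smul_right_injective _ D.hc h5)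
  erw [push_graph_inj h, push_graph_inj r0] at h6
  simpa only [Sum.elim_inr, Sum.elim_comp_inl, D.rj, zero_sub, comp_id] using h6.symm

theorem j_F (n : ℕ) (a : A) : D.j (D.F n a) = D.fr^[n] (D.j a) := by
  rw [D.Fφ]
  exact Semiconj.iterate_right D.jφ n a

theorem r_fr (n : ℕ) (x : X) : D.r (D.fr^[n] x) = D.F n (D.r x) := by
  rw [D.Fφ]
  exact Semiconj.iterate_right D.rφ n x

theorem frob (h : D.Rg u) (n : ℕ) :
    (D.E (fun t => D.F n (u t)) - 1) ^ D.g = ((Q : ℂ) ^ n) ^ D.g • (D.E u - 1) ^ D.g := by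
  have h1 : D.E (fun t => D.F n (u t)) = D.E u ^ Q ^ n :=
    (twF_of_par ((h ()).npow (Q ^ n)) fun t => by
      rw [D.j_F]
      exact D.isFr.iter n _).trans (twF_npow (h ()) _)
  rw [← D.lgE (h.F n), ← D.lgE h, h1, lg_pow (t := D.E u) (h ()).unip,
    ← Nat.cast_smul_eq_nsmul ℂ, smul_pow, Nat.cast_pow]

theorem rg_dif : D.Rg D.dif := (AG.rg_r _).sub (AG.rg_r _)

theorem alt (d : ℕ) (z w : G I U2) :
    ∑ i ∈ Finset.range (D.g + 1), ((-1) ^ i * D.g.choose i : ℂ) •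
      fgt out out_inj ((D.E D.dif ^ (d + i)) (boxG z w)) = (-1 : ℂ) ^ D.g • D.cmp z w := by
  have h1 : D.E D.dif * (D.E D.dif - 1) ^ D.g = (D.E D.dif - 1) ^ D.g := by
    have := D.nil D.rg_dif
    rwa [pow_succ', sub_mul, one_mul, sub_eq_zero] at this
  have h2 : D.E D.dif ^ d * (D.E D.dif - 1) ^ D.g = (D.E D.dif - 1) ^ D.g := by
    induction d with
    | zero => rw [pow_zero, one_mul]
    | succ d ih => rw [pow_succ, mul_assoc, h1, ih]
  have h3 : ∑ i ∈ Finset.range (D.g + 1), ((-1) ^ i * D.g.choose i : ℂ) • D.E D.dif ^ (d + i) =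
      (-1 : ℂ) ^ D.g • (D.E D.dif - 1) ^ D.g := by
    rw [← h2, ← mul_smul_comm, ← smul_pow, neg_one_smul, neg_sub, sub_eq_neg_add,
      (Commute.one_right _).add_pow, Finset.mul_sum]
    refine Finset.sum_congr rfl fun i _ => ?_
    rw [one_pow, mul_one, ← neg_one_smul ℂ (D.E D.dif), smul_pow, pow_add,
      ← nsmul_eq_mul' (_ • _ : Module.End ℂ (G I (U2 ⊕ U2))), ← Nat.cast_smul_eq_nsmul ℂ,
      smul_smul, mul_smul_comm, mul_comm]
  rw [AB.cmp, ← map_smul, ← LinearMap.smul_apply, ← h3, LinearMap.sum_apply, map_sum]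
  simp only [LinearMap.smul_apply, map_smul]

/-- Frobenius of the abelian variety in the second slot -/
def ps (n : ℕ) (t : U2 → X) : U2 → X :=
  Sum.elim (t ∘ Sum.inl) fun _ => D.j (D.F n (D.r (t (.inr ()))))

theorem regM_ps (n : ℕ) : Γ.RegM (D.ps n) := (Γ.regM_rm _).elim ((AG.rg_r _).F n)

theorem regM_ph (n : ℕ) : Γ.RegM (D.ph n) := (D.isFr.iter n).regM_right

theorem cmp_eq (z w : G I U2) :
    D.cmp z w = Γ.pushM (fun t => t ∘ out) (((D.E D.dif - 1) ^ D.g) (boxG z w)) :=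
  (Γ.pushM_rm _ _ _).symm

theorem cmp_frob (n : ℕ) (z w : G I U2) :
    D.cmp (Γ.pushM (D.ps n) z) (Γ.pushM (fun t => D.fr^[n] ∘ t) w) =
      ((Q : ℂ) ^ n) ^ D.g • Γ.pushM (D.ph n) (D.cmp z w) := by
  have r1 := D.regM_ps n
  have r2 : Γ.RegM fun t : U2 → X => D.fr^[n] ∘ t := (D.isFr.iter n).regM
  have r3 := regM_prod r1 r2
  have e : (fun t : U2 ⊕ U2 → X => D.dif (Sum.elim (D.ps n (t ∘ Sum.inl))
      (D.fr^[n] ∘ t ∘ Sum.inr))) = fun t => D.F n (D.dif t) := funext fun t => by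
    simp only [AB.dif, ps, Sum.elim_inl, Sum.elim_inr, comp_apply, D.rj, D.r_fr, D.Fφ,
      iterate_map_sub]
  rw [cmp_eq, cmp_eq, ← Γ.pushM_box r1 r2, D.P_push D.rg_dif r3, e, D.frob D.rg_dif,
    LinearMap.smul_apply, map_smul, map_smul, Γ.pushM_comp r3 (Γ.regM_rm _),
    Γ.pushM_comp (Γ.regM_rm _) (D.regM_ph n)]
  congr 3
  funext t i
  rcases i with i | i <;> rfl

theorem cmp_graph (n : ℕ) (z : G I U2) :
    D.cmp z (Γ.pushM (fun t : Unit → X => Sum.elim t fun _ : Unit => D.j (D.F n (D.r (t ()))))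
      D.one) = D.c • Γ.pushM (D.ps n) z := by
  have r1 := (Γ.regM_rm (id : Unit → Unit)).elim ((AG.rg_r (D := D.toAG) ()).F n)
  have r0 := Γ.regM_rm (id : U2 → U2)
  have r2 := regM_prod r0 r1
  have e1 := Γ.pushM_box r0 r1 z D.one
  rw [Γ.pushM_rm id injective_id, fgt_id] at e1
  have h1 : D.Rg fun t : U2 → X => D.r (t (.inr ())) := AG.rg_r _
  have e2 := D.neg ((AG.rg_r (D := D.toAG) (Sum.inr () : U2 ⊕ Unit)).sub
    (h1.comp (Γ.regM_rm Sum.inl)))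
  simp only [neg_sub] at e2
  rw [cmp_eq]
  erw [← e1, D.P_push D.rg_dif r2, e2, D.diag h1, map_smul, map_smul,
    Γ.pushM_comp (r0.elim h1) r2, Γ.pushM_comp (r2.comp (r0.elim h1)) (Γ.regM_rm _)]
  congr 3
  funext t i
  rcases i with i | i
  · rfl
  · simp [ps, D.rj]

theorem cmp_box_right (z : G I U2) (a b : G I Unit) : ∃ a', D.cmp z (boxG a b) = boxG a' b := by
  have h1 : D.Rg fun t : U2 ⊕ Unit → X => D.r (t (.inl (.inr ()))) - D.r (t (.inr ())) :=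
    (AG.rg_r _).sub (AG.rg_r _)
  have r1 := Γ.regM_rm (ι := U2 ⊕ Unit) fun _ : Unit => .inl (.inl ())
  have e1 := Γ.pushM_box r1 (Γ.regM_rm (id : Unit → Unit))
    (((D.E (fun t : U2 ⊕ Unit → X => D.r (t (.inl (.inr ()))) - D.r (t (.inr ()))) - 1) ^ D.g)
      (boxG z a)) b
  rw [Γ.pushM_rm id injective_id, fgt_id, ← D.P_left h1] at e1
  refine ⟨_, Eq.trans ?_ e1⟩
  rw [cmp_eq, ← Γ.pushM_assoc, D.P_push D.rg_dif (Γ.regM_rm _),
    Γ.pushM_comp (Γ.regM_rm _) (Γ.regM_rm _)]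
  congr 2
  funext t i
  rcases i with i | i <;> rfl

theorem cmp_box_left (a b : G I Unit) (w : G I U2) : ∃ b', D.cmp (boxG a b) w = boxG a b' := by
  have h1 : D.Rg fun t : Unit ⊕ U2 → X => D.r (t (.inl ())) - D.r (t (.inr (.inl ()))) :=
    (AG.rg_r _).sub (AG.rg_r _)
  have r1 := Γ.regM_rm (ι := Unit ⊕ U2) fun _ : Unit => .inr (.inr ())
  have e1 := Γ.pushM_box (Γ.regM_rm (id : Unit → Unit)) r1 a
    (((D.E (fun t : Unit ⊕ U2 → X => D.r (t (.inl ())) - D.r (t (.inr (.inl ())))) - 1) ^ D.g)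
      (boxG b w))
  rw [Γ.pushM_rm id injective_id, fgt_id, ← D.P_right h1] at e1
  refine ⟨_, Eq.trans ?_ e1⟩
  have e2 : boxG (boxG a b) w =
      Γ.pushM (fun t => t ∘ Equiv.sumAssoc Unit Unit U2) (boxG a (boxG b w)) := by
    rw [← Γ.pushM_assoc, Γ.pushM_comp (Γ.regM_rm _) (Γ.regM_rm _)]
    refine (Γ.pushM_id _).symm.trans ?_
    congr 2
    funext t i
    simp
  rw [cmp_eq, e2, D.P_push D.rg_dif (Γ.regM_rm _), Γ.pushM_comp (Γ.regM_rm _) (Γ.regM_rm _)]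
  congr 2
  funext t i
  rcases i with i | i <;> rfl

/-- the composition as a bilinear map -/
def cmpL : G I U2 →ₗ[ℂ] G I U2 →ₗ[ℂ] G I U2 :=
  boxG.compr₂ (fgt out out_inj ∘ₗ ((D.E D.dif - 1) ^ D.g : Module.End ℂ _))

theorem cmpL_apply (z w : G I U2) : D.cmpL z w = D.cmp z w := rfl

theorem sp_ps (z w : G I U2) : (fun n => D.cmp (Γ.pushM (D.ps n) z) w) ∈ SP (Bx I) Q := by
  refine AG.mem_congr (SP.map (B' := Bx I) (D.c⁻¹ • D.cmpL.flip w ∘ₗ D.cmpL z)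
    (Bx.map _ fun a b => ?_) D.sp) fun n => ?_
  · obtain ⟨a', h1⟩ := D.cmp_box_right z a b
    obtain ⟨b', h2⟩ := D.cmp_box_left a' b w
    refine Submodule.smul_mem _ _ ?_
    change D.cmp (D.cmp z (boxG a b)) w ∈ _
    rw [h1, h2]
    exact box_mem _ _
  · rw [← AG.push_one]
    change D.c⁻¹ • D.cmpL.flip w (D.cmp z _) = _
    rw [cmp_graph, map_smul, smul_smul, inv_mul_cancel₀ D.hc, one_smul]
    rfl

theorem push_fr {w : G I ι} {c : ℂ} (hw : Γ.pushM (fun t => D.fr ∘ t) w = c • w) (n : ℕ) :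
    Γ.pushM (fun t => D.fr^[n] ∘ t) w = c ^ n • w := by
  induction n with
  | zero => rw [pow_zero, one_smul]; exact Γ.pushM_id w
  | succ n ih =>
    have := Γ.pushM_comp D.isFr.regM (D.isFr.iter n).regM w
    rw [hw, map_smul, ih, smul_smul, ← pow_succ'] at this
    exact this.symm

theorem ph_cmp (hQ : Q ≠ 0) (z : G I U2) {w : G I U2} {c : ℂ}
    (hw : Γ.pushM (fun t => D.fr ∘ t) w = c • w) (n : ℕ) : Γ.pushM (D.ph n) (D.cmp z w) =
      (c / (Q : ℂ) ^ D.g) ^ n • D.cmp (Γ.pushM (D.ps n) z) w := by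
  have h1 := D.cmp_frob n z w
  have h2 : ((Q : ℂ) ^ n) ^ D.g ≠ 0 := pow_ne_zero _ (pow_ne_zero _ (Nat.cast_ne_zero.2 hQ))
  rw [D.push_fr hw, ← cmpL_apply, map_smul, cmpL_apply, ← inv_smul_eq_iff₀ h2, smul_smul] at h1
  rw [← h1, div_pow, ← pow_mul, ← pow_mul, mul_comm n, div_eq_inv_mul]

theorem cmp_sp (hQ : Q ≠ 0) (z : G I U2) {w : G I U2} {c : ℂ} {m i : ℕ}
    (hm : m ≠ 0) (hc : c ^ m = (Q : ℂ) ^ (i * m)) (hw : Γ.pushM (fun t => D.fr ∘ t) w = c • w) :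
    (fun n => Γ.pushM (D.ph n) (D.cmp z w)) ∈ SP (Bx I) Q :=
  AG.mem_congr (SP.smul_root hm hQ hc D.g (D.sp_ps z w)) fun n => (D.ph_cmp hQ z hw n).symm

end AB

end Pool.Agent.Abt
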