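import Pool.Agent.P.MP_2ce3e7_ag.Abt.MkB
import Pool.Agent.P.MP_dd457d_ag.Bcv.Nd

/-! The abelian variety inside a union: existence of the data. -/

set_option autoImplicit false

noncomputable section

namespace Pool.Agent.Abt

open Function Pool.Agent.Bav Pool.Agent.Bcv MvPolynomial

variable (k : Type) [Field k] [Fintype k] {σ τ X A : Type} [Fintype σ] [Fintype τ]
  {I : Ideal (MvPolynomial σ (AlgebraicClosure k))} {Γ : Geo I X} [AddCommGroup A]

theorem exists_AB {p : A → τ → AlgebraicClosure k} {g : ℕ} (av : Tav.AV p g)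
    (Δ : Geo (Tav.idl p) A) (hΔ : Δ.p = p) {v : τ → σ} {j : A → X} (h : OPart Γ Δ v j) :
    ∃ e ≠ 0, ∃ D : AB Γ A (Fintype.card k ^ e), D.j = j ∧ D.g = g := by
  obtain ⟨e, he, H⟩ := dv_AB k av Δ hΔ h fun e he F hF =>
    av_pkg_pow k av (by rw [← hΔ]; exact Δ.inj) he hF Δ hΔ
  exact ⟨e, he, H e dvd_rfl he⟩

end Pool.Agent.Abt
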