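import Pool.Agent.P.MP_2ce3e7_ag.Abt.Conv
import Pool.Agent.P.MP_2ce3e7_ag.Abt.Core
import Pool.Agent.P.MP_2ce3e7_ag.Abt.Mk

/-! Abelian varieties are of abelian type. -/

set_option autoImplicit false

noncomputable section

namespace Pool.Agent.Abt

open Function Pool.Agent.Bav Pool.Agent.Bcv MvPolynomial

/-- a variety is an open and closed part of itself -/
theorem oPart_refl {K τ Y : Type} [Field K] {J : Ideal (MvPolynomial τ K)} (Δ : Geo J Y) :
    OPart Δ Δ id id :=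
  ⟨injective_id, fun y => funext fun t => (injective_id.extend_apply (Δ.p y) 0 t).symm,
    fun x hx => (hx ⟨x, rfl⟩).elim⟩

variable (k : Type) [Field k] [Fintype k] {Y τ : Type} [Fintype τ] {r : Y → τ → AlgebraicClosure k}

theorem abT_of_av [AddCommGroup Y] {g : ℕ} (av : Tav.AV r g)
    (inj : ∀ a b, Tav.Par (r a) (r b) → a = b) : AbT r := by
  obtain ⟨Δ, hΔ⟩ : ∃ Δ : Geo (Tav.idl r) Y, Δ.p = r := ⟨⟨r, av.ne, inj, rfl, av.cl⟩, rfl⟩
  obtain ⟨e, -, D, hj, rfl⟩ := exists_AB k av Δ hΔ (oPart_refl Δ)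
  refine abT_of_mem D hΔ (oPart_refl Δ) av hΔ (hj ▸ oPart_refl Δ) ?_
  have h1 : D.ps 0 = fun t => t := funext fun t => funext fun i => by
    rcases i with i | i
    · rfl
    · have := D.rj (t (.inr ()))
      rw [hj] at this
      simp only [AB.ps, Sum.elim_inr, D.Fφ, hj, iterate_zero, id_eq] at this ⊢
      exact this
  have h2 := congrArg ((oPart_refl Δ).rst U2)
    (D.cmp_graph 0 (Δ.cT {t | t (.inr ()) = t (.inl ())} 0))
  rw [h1, Δ.pushM_id, map_smul, OPart.rst_cT] at h2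
  exact (Submodule.smul_mem_iff _ D.hc).1 (Submodule.subset_span ⟨(_, _), h2⟩)

end Pool.Agent.Abt
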