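import Pool.Agent.P.MP_dd457d_ag.Bav.Defs
import Pool.Agent.P.MP_dd457d_ag.Bav.Stmt0

/-! Varieties whose diagonal is a combination of correspondences through an abelian variety. -/

set_option autoImplicit false

noncomputable section

namespace Pool.Agent.Abt

open MvPolynomial Pool.Agent.Tav Pool.Agent.Bav

variable {K σ ι : Type} [Field K] {I : Ideal (MvPolynomial σ K)}

/-- linear forms on the Grothendieck group of coherent sheaves -/
def Add (l : GM I ι → ℚ) : Prop :=
  (∀ (M N P : GM I ι) (f : Hom M N) (g : Hom N P), SES f g → l N = l M + l P) ∧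
    ∀ M, Tors M → l M = 0

/-- `M` is the graded module of functions on `T` that `W` generates over the coordinates `x` -/
def Fn [Fintype ι] {T : Type} (x : ι → T → σ → K) (W : Submodule K (T → K)) (M : GM I ι) : Prop :=
  ∃ j : M.M →ₗ[K] T → K, (∀ v m, j ((X v : S σ K ι) • m) = (fun t => x v.1 t v.2) * j m) ∧
    (∀ d : ι → ℕ, Set.BijOn j (LinearMap.range (M.π fun i => d i))
      ((∏ i, crd (x i) ^ d i) * W : Submodule K (T → K))) ∧ ∀ d, ¬0 ≤ d → M.π d = 0

/-- the class of the diagonal of `Y` is a rational combination of compositions of a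
correspondence from `Y` to an abelian variety with a correspondence back -/
def AbT {Y : Type} (r : Y → σ → K) : Prop :=
  ∃ (G τ : Type) (_ : AddCommGroup G) (_ : Fintype τ) (p : G → τ → K) (g : ℕ), AV p g ∧
    (∀ a b, Par (p a) (p b) → a = b) ∧ ∀ l : GM (idl r) (Unit ⊕ Unit) → ℚ, Add l →
      (∀ (Z : Set (Y × G)) (W : Set (G × Y)), ∀ᶠ d : ℕ in Filter.atTop,
        ∀ M : ℕ → GM (idl r) (Unit ⊕ Unit),
          (∀ i, Fn (Sum.elim (fun _ (t : Z × W) => r t.1.1.1) fun _ t => r t.2.1.2)
            ((crd fun t => p t.1.1.2) ^ d * (crd fun t => p t.2.1.1) ^ d *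
              (crd fun t => p (t.1.1.2 - t.2.1.1)) ^ (d + i)) (M i)) →
          ∑ i ∈ Finset.range (g + 1), (-1) ^ i * g.choose i * l (M i) = 0) →
      ∀ D, Fn (fun _ => r) 1 D → l D = 0

end Pool.Agent.Abt
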