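import Pool.Agent.P.MP_2ce3e7_ag.Abt.Defs
import Pool.Agent.P.MP_2ce3e7_ag.Abt.Stmt
import Pool.Agent.P.MP_dd457d_ag.Bcv.Ext
import Pool.Agent.P.MP_dd457d_ag.Bav.Bridge
import Pool.Agent.P.MP_dd457d_ag.Bav.LS

/-! The classes of modules of functions. -/

set_option autoImplicit false
set_option linter.unusedSectionVars false

noncomputable section

namespace Pool.Agent.Abt

open MvPolynomial Function Pool.Agent.Tav Pool.Agent.Bav

variable {K σ τ ι κ T X Y : Type} [Field K] {I : Ideal (MvPolynomial σ K)} [Fintype σ] [Fintype ι]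
  [Fintype κ] {x : T → κ × σ → K}

instance fd_one : FiniteDimensional K (1 : Submodule K (T → K)) :=
  Submodule.one_eq_span (R := K) (A := T → K) ▸ inferInstance

theorem nat_of {e : ι → ℤ} (h : 0 ≤ e) : ∃ d : ι → ℕ, e = fun i => (d i : ℤ) :=
  ⟨fun i => (e i).toNat, funext fun i => (Int.toNat_of_nonneg (h i)).symm⟩

theorem pcZ_neg {d : κ → ℤ} (h : ¬0 ≤ d) : pcZ x d = ⊥ := by
  refine eq_bot_iff.2 ?_
  rintro _ ⟨f, hf, rfl⟩
  by_cases e : f = 0
  · rw [e, map_zero]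
    exact zero_mem _
  · obtain ⟨s, hs⟩ := ne_zero_iff.1 e
    exact absurd (fun i => Hg.deg hf (mem_support_iff.2 hs) i ▸ Nat.cast_nonneg _) h

/-- modules of functions exist -/
theorem fn_FM (hx : OnX I x) (W : Submodule K (T → K)) [FiniteDimensional K W] :
    Fn (fun i t l => x t (i, l)) W (FM hx W) := by
  let s : FA x →ₐ[K] T → K := (AddMonoidAlgebra.lift (T → K) (T → K) (κ → ℤ) 1).restrictScalars K
  have hs : ∀ d g, s (FA.sg x d g) = g := fun d g =>
    (AddMonoidAlgebra.lift_single _ d g).trans (mul_one g)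
  have h1 : ∀ d (F : (FM hx W).M), F ∈ LinearMap.range ((FM hx W).π d) →
      FM.val F = FA.sg x d (s (FM.val F)) ∧ s (FM.val F) = FA.co x d (FM.val F) := by
    rintro d _ ⟨F, rfl⟩
    rw [FM_π, hs, FA.co_sg]
    exact ⟨rfl, rfl⟩
  refine ⟨⟨⟨fun F => s (FM.val F), fun F F' => map_add s _ _⟩, fun a F => ?_⟩, fun v F => ?_,
    fun d => ⟨fun F hF => ?_, fun F hF F' hF' e => ?_, fun g hg => ?_⟩, fun d hd => ?_⟩
  · exact map_smul s a (FM.val F)
  · change s (FM.val _) = _ * s _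
    rw [FM.val_smul, map_mul, evA, aeval_X, hs]
  · change s _ ∈ _
    rw [(h1 _ F hF).2, ← pcZ_nat]
    exact FM.val_mem F _
  · exact FM.ext' ((h1 _ F hF).1.trans ((congrArg _ e).trans (h1 _ F' hF').1.symm))
  · rw [← pcZ_nat] at hg
    exact ⟨FM.mk hx _ (sg_mem_FS hg), (GM.mem_range_π _).2
      (FM.ext' (congrArg (FA.sg x _) (FA.co_sg _ _))), hs _ _⟩
  · refine LinearMap.ext fun F => FM.ext' ?_
    have := FM.val_mem F d
    rw [pcZ_neg hd, Submodule.bot_mul, Submodule.mem_bot] at this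
    rw [FM_π, this, map_zero]
    rfl

theorem pcZ_val {a : ι → κ} (ha : Injective a) {o : κ → ℕ} (e : ι → ℕ) :
    pcZ x ((reD I a ha fun l => o l).val fun i => e i) =
      (∏ i, (crd fun t l => x t (a i, l)) ^ e i) * ∏ l, (crd fun t b => x t (l, b)) ^ o l := by
  have h : ((reD I a ha fun l => o l).val fun i => e i) =
      fun l => (((extend a e 0 + o) l : ℕ) : ℤ) := by
    funext l
    by_cases h : ∃ i, a i = l
    · obtain ⟨i, rfl⟩ := h
      rw [reD_val_τ, Pi.add_apply, ha.extend_apply, Nat.cast_add, add_comm]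
    · rw [reD_val_of_not a ha _ _ fun i e => h ⟨i, e⟩, Pi.add_apply, extend_apply' _ _ _ h,
        Pi.zero_apply, zero_add]
  rw [h, pcZ_nat]
  simp only [Pi.add_apply, pow_add, Finset.prod_mul_distrib]
  congr 1
  exact (Fintype.prod_of_injective a ha _ _ (fun l hl => by rw [extend_apply' _ _ _ hl]; rfl)
    fun i => by rw [ha.extend_apply]).symm

/-- a module of functions is a slice of the coordinate ring of the family -/
theorem Fn.pl (hx : OnX I x) {a : ι → κ} (ha : Injective a) {o : κ → ℕ} (ho : ∀ i, o (a i) = 0)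
    {M : GM I ι}
    (h : Fn (fun i t l => x t (a i, l)) (∏ l, (crd fun t b => x t (l, b)) ^ o l) M) :
    cls M = pl (reD I a ha fun l => o l) (FM hx 1) := by
  classical
  obtain ⟨j, hj, hb, h0⟩ := h
  set D := reD I a ha fun l => o l with hD
  have H : ∀ m, ∃ F : FA x, (∀ e, FA.co x (D.val e) F = j (M.π e m)) ∧
      ∀ d, d ∉ Set.range D.val → FA.co x d F = 0 := fun m => by
    refine ⟨∑ e ∈ (M.finite_supp m).toFinset, FA.sg x (D.val e) (j (M.π e m)), fun e => ?_,
      fun d hd => ?_⟩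
    · rw [map_sum, Finset.sum_eq_single e (fun e' _ h => FA.co_sg_ne (D.val_inj.ne h.symm) _)
        fun h => by rw [show M.π e m = 0 by simpa using h, map_zero, map_zero, map_zero], FA.co_sg]
    · rw [map_sum]
      exact Finset.sum_eq_zero fun e _ => FA.co_sg_ne (fun h => hd ⟨e, h.symm⟩) _
  choose J h1 h2 using H
  have un : ∀ m F, (∀ e, FA.co x (D.val e) F = j (M.π e m)) →
      (∀ d, d ∉ Set.range D.val → FA.co x d F = 0) → J m = F := fun m F e1 e2 => FA.ext' fun d => by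
    by_cases hd : d ∈ Set.range D.val
    · obtain ⟨e, rfl⟩ := hd
      rw [h1, e1]
    · rw [h2 m d hd, e2 d hd]
  have hm : ∀ m, J m ∈ FS x 1 := fun m d => by
    by_cases hd : d ∈ Set.range D.val
    · obtain ⟨e, rfl⟩ := hd
      rw [h1]
      by_cases he : 0 ≤ e
      · obtain ⟨e, rfl⟩ := nat_of he
        rw [mul_one, pcZ_val]
        exact (hb e).mapsTo ⟨m, rfl⟩
      · rw [h0 e he, LinearMap.zero_apply, map_zero]
        exact zero_mem _
    · rw [h2 m d hd]
      exact zero_mem _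
  have hπ : ∀ e m, J (M.π e m) = FA.sg x (D.val e) (j (M.π e m)) := fun e m => un _ _
    (fun e' => by
      by_cases h : e' = e
      · rw [h, FA.co_sg, M.π_self]
      · rw [FA.co_sg_ne (D.val_inj.ne h), M.π_ne _ _ _ h, map_zero])
    fun d hd => FA.co_sg_ne (fun h => hd ⟨e, h.symm⟩) _
  have hv : ∀ e (v : ι × σ), D.val (e + wt v) = D.val e + wt (a v.1, v.2) := fun e v => by
    rw [D.val_add, D.pullA_val_wt]
    exact congrArg _ (one_smul _ _)
  let L : M.M →ₗ[K] (FM hx 1).M :=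
    { toFun := fun m => FM.mk hx _ (hm m)
      map_add' := fun m m' => FM.ext' (un _ (J m + J m')
        (fun e => by rw [map_add, h1, h1, map_add, map_add])
        fun d hd => by rw [map_add, h2 _ d hd, h2 _ d hd, add_zero])
      map_smul' := fun c m => FM.ext' (un _ (c • J m)
        (fun e => by rw [map_smul, h1, map_smul, map_smul])
        fun d hd => by rw [map_smul, h2 _ d hd, smul_zero]) }
  refine IsPull.cls_eq (j := L) ⟨(injective_iff_map_eq_zero _).2 fun m hm => M.eq_zero fun e => ?_,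
    fun f => ?_, fun e m => FM.ext' ?_, fun e F => ?_⟩
  · by_cases he : 0 ≤ e
    · obtain ⟨e, rfl⟩ := nat_of he
      refine (hb e).injOn ⟨m, rfl⟩ (zero_mem _) ?_
      rw [← h1, show J m = 0 from congrArg FM.val hm, map_zero, map_zero]
    · rw [h0 e he, LinearMap.zero_apply]
  · induction f using MvPolynomial.induction_on with
    | C c => exact fun m => by rw [M.C_smul, algHom_C, algebraMap_smul, map_smul]
    | add p q hp hq => exact fun m => by rw [add_smul, map_add, hp, hq, map_add, add_smul]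
    | mul_X p v hp =>
      intro m
      rw [mul_smul, hp, map_mul, mul_smul, Ops_re_X]
      refine congrArg _ (FM.ext' (un _ _ (fun e => ?_) fun d hd => ?_))
      · rw [FM.val_smul, evA, aeval_X, ← sub_add_cancel e (wt v), hv, FA.co_mul, M.π_X, hj, ← h1]
        rfl
      · rw [FM.val_smul, evA, aeval_X, ← sub_add_cancel d (wt (a v.1, v.2)), FA.co_mul]
        refine (congrArg _ (h2 m _ ?_)).trans (mul_zero _)
        rintro ⟨e, he⟩
        exact hd ⟨e + wt v, by rw [hv, he, sub_add_cancel]⟩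
  · exact (hπ e m).trans (congrArg _ (h1 m e).symm)
  · have hF := FM.val_mem F (D.val e)
    by_cases he : 0 ≤ e
    · obtain ⟨e, rfl⟩ := nat_of he
      rw [mul_one, pcZ_val] at hF
      obtain ⟨_, ⟨m, rfl⟩, hm⟩ := (hb e).surjOn hF
      exact ⟨_, FM.ext' ((hπ _ m).trans (congrArg _ hm))⟩
    · rw [pcZ_neg fun h => he fun i => by
        simpa only [hD, reD_val_τ, ho, Nat.cast_zero, zero_add, Pi.zero_apply] using h (a i),
        Submodule.bot_mul, Submodule.mem_bot] at hF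
      exact ⟨0, FM.ext' ((congrArg FM.val (map_zero L)).trans
        (by rw [FM_π, hF, map_zero]; rfl))⟩

variable [IsAlgClosed K] (Γ : Geo I X)

theorem onX_pts (s : T → κ → X) : OnX I fun t => xp Γ.p (s t) := fun _ hf d t =>
  Γ.ev_of_IX (grI_IX Γ.hom d _ hf) (s t)

/-- a module of functions is the projection of a twisted coordinate ring -/
theorem cls_fn (s : T → κ → X) {a : ι → κ} (ha : Injective a) : ∃ d₀ : ℕ, ∀ o : κ → ℕ,
    (∀ i, o (a i) = 0) → (∀ l, (∀ i, a i ≠ l) → d₀ ≤ o l) → ∀ M : GM I ι,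
      Fn (fun i t => Γ.p (s t (a i))) (∏ l, (crd fun t => Γ.p (s t l)) ^ o l) M →
        cls M = fgt a ha (Γ.cT (Set.range s) fun l => o l) := by
  obtain ⟨y, hy⟩ := isCyc_FM (onX_pts Γ s) (Γ.grI_VI (Set.range s))
    (fun f d hf => by rw [Γ.mem_VI hf, Set.forall_mem_range]; rfl) rfl
  obtain ⟨d₀, hd⟩ := fgt_spec' a ha (FM (onX_pts Γ s) 1)
  obtain ⟨B, hB⟩ := Finite.exists_le fun l => (d₀ l).toNat
  refine ⟨B, fun o ho h M hM => ?_⟩
  rw [Fn.pl (onX_pts Γ s) ha ho hM, ← hd _ fun l hl => by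
    have := hB l
    have := h l hl
    omega, hy.cls_eq, ← zero_add fun l => (o l : ℤ), ← Γ.shG_cT, zero_add]
  rfl

/-- the class of the diagonal -/
theorem cls_diag {D : GM I ι} (h : Fn (fun _ => Γ.p) 1 D) :
    cls D = Γ.cT (Set.range fun y (_ : ι) => y) 0 := by
  obtain ⟨_, hd⟩ := cls_fn Γ (fun y (_ : ι) => y) injective_id
  rw [hd 0 (fun _ => rfl) (fun l hl => absurd rfl (hl l)) D (by simpa using h), fgt_id]
  rfl

theorem exists_diag (ι : Type) [Fintype ι] : ∃ D : GM I ι, Fn (fun _ => Γ.p) 1 D :=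
  ⟨_, fn_FM (onX_pts Γ fun y (_ : ι) => y) 1⟩

/-- the same with a power of the twist along a regular map -/
theorem cls_tw (s : T → κ → X) {a : ι → κ} (ha : Injective a) {δ : (κ → X) → X}
    (hδ : Γ.RegF fun t => Γ.p (δ t)) : ∃ d₀ : ℕ, ∀ (o : κ → ℕ) (n : ℕ),
    (∀ i, o (a i) = 0) → (∀ l, (∀ i, a i ≠ l) → d₀ ≤ o l) → d₀ ≤ n → ∀ M : GM I ι,
      Fn (fun i t => Γ.p (s t (a i)))
        ((∏ l, (crd fun t => Γ.p (s t l)) ^ o l) * (crd fun t => Γ.p (δ (s t))) ^ n) M →
        cls M = fgt a ha ((Γ.twF (fun t => Γ.p (δ t)) ^ n) (Γ.cT (Set.range s) fun l => o l)) := by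
  classical
  have hr : Γ.RegM fun t (_ : Unit) => δ t := fun _ => hδ
  obtain ⟨d₀, hd⟩ := cls_fn Γ (fun t => Sum.elim (s t) fun _ : Unit => δ (s t))
    (Sum.inl_injective.comp ha)
  refine ⟨d₀, fun o n ho h hn M hM => ?_⟩
  rw [hd (Sum.elim o fun _ => n) ho ?_ M (by simpa using hM), ← fgt_comp _ Sum.inl_injective a ha]
  · have key : ∀ (n : ℕ) y, (shG (Pi.single (Sum.inr ()) 1) ^ n)
        (Γ.pushM (fun t => Sum.elim t fun _ : Unit => δ t) y) =
        Γ.pushM (fun t => Sum.elim t fun _ : Unit => δ t) ((Γ.twF (fun t => Γ.p (δ t)) ^ n) y) := by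
      intro n y
      induction n with
      | zero => rfl
      | succ n ih =>
        rw [pow_succ', pow_succ', Module.End.mul_apply, ih, ← Γ.twF_proj,
          Γ.twF_pushM (Γ.regF_proj _) hr.sec.reg]
        rfl
    refine congrArg _ (Eq.trans ?_ (hr.sec.fgt_grs _))
    rw [← hr.sec.pushM_eq, ← key, hr.sec.pushM_eq, hr.sec.grs_cT, ← shG_nsmul, Γ.shG_cT,
      Geo.extend_inl, ← Set.range_comp]
    congr 2
    funext l
    rcases l with l | l <;> simp
  · rintro (l | l) hl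
    exacts [h l fun i e => hl i (congrArg Sum.inl e), hn]

theorem exists_fn {J : Ideal (MvPolynomial τ K)} [Fintype τ] {x : ι → T → τ → K}
    (hx : OnX J fun t v => x v.1 t v.2) (W : Submodule K (T → K)) [FiniteDimensional K W] :
    ∃ M : GM J ι, Fn x W M := ⟨_, fn_FM hx W⟩

theorem fn_diag {M : GM I (Unit ⊕ Unit)} (h : Fn (fun _ => Γ.p) 1 M) :
    cls M = Γ.cT {t | t (.inr ()) = t (.inl ())} 0 := by
  rw [cls_diag Γ h]
  congr 1
  ext t
  refine ⟨by rintro ⟨y, rfl⟩; rfl, fun h => ⟨t (.inl ()), funext ?_⟩⟩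
  rintro (_ | _)
  exacts [rfl, h.symm]

variable {Γ} [Fintype τ] {J : Ideal (MvPolynomial τ K)} {Δ : Geo J Y} {u : τ → σ} {y : Y → X}

/-- modules of functions extend by zero -/
theorem Fn.ext (h : OPart Γ Δ u y) {s : ι → T → Y} {W : Submodule K (T → K)} {M : GM J ι}
    (hM : Fn (fun i t => Δ.p (s i t)) W M) : Fn (fun i t => Γ.p (y (s i t))) W (h.extM M) := by
  obtain ⟨j, hj, hb, h0⟩ := hM
  refine ⟨j, fun ⟨i, l⟩ m => ?_, fun d => by simp only [h.crd_pad]; exact hb d, h0⟩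
  change j (kl K ι u (MvPolynomial.X (i, l)) • show M.M from m) = _
  by_cases e : ∃ t, u t = l
  · obtain ⟨t, rfl⟩ := e
    rw [kl_on h.inj, hj]
    simp only [h.p_on]
    rfl
  · rw [kl_off i e, zero_smul, map_zero]
    simp only [h.pon, extend_apply' _ _ _ e]
    exact (zero_mul _).symm

theorem Fn.cgr {x x' : ι → T → σ → K} {W W' : Submodule K (T → K)} {M : GM I ι}
    (hM : Fn x W M) (e : x = x') (e' : W = W') : Fn x' W' M := e ▸ e' ▸ hM

theorem fn_cls' {A υ : Type} [AddCommGroup A] [Fintype υ] {j : A → X} {r : X → A}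
    (rj : ∀ a, r (j a) = a)
    (sub : Γ.RegF fun t : Unit ⊕ Unit → X => Γ.p (j (r (t (.inl ())) - r (t (.inr ())))))
    (hY : OPart Γ Δ u y) {L : Ideal (MvPolynomial υ K)} {Θ : Geo L A} {v : υ → σ}
    (hA : OPart Γ Θ v j) (Z : Set (Y × A)) (W : Set (A × Y)) :
    ∀ᶠ d : ℕ in Filter.atTop, ∀ (i : ℕ) (M : GM J (Unit ⊕ Unit)),
      Fn (Sum.elim (fun _ (t : Z × W) => Δ.p t.1.1.1) fun _ t => Δ.p t.2.1.2)
        ((Tav.crd fun t => Θ.p t.1.1.2) ^ d * (Tav.crd fun t => Θ.p t.2.1.1) ^ d *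
          (Tav.crd fun t => Θ.p (t.1.1.2 - t.2.1.1)) ^ (d + i)) M →
      hY.ext _ (cls M) = fgt (Sum.map Sum.inl Sum.inr) (Sum.inl_injective.sumMap Sum.inr_injective)
        ((Γ.twF (fun t => Γ.p (j (r (t (.inl (.inr ()))) - r (t (.inr (.inl ())))))) ^ (d + i)) (boxG
        (Γ.cT ((fun s => Sum.elim (fun _ => y s.1) fun _ => j s.2) '' Z)
          (Sum.elim 0 fun _ => d))
        (Γ.cT ((fun s => Sum.elim (fun _ => j s.1) fun _ => y s.2) '' W)
          (Sum.elim (fun _ => d) 0)))) := by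
  let s : Z × W → (Unit ⊕ Unit) ⊕ Unit ⊕ Unit → X := fun t =>
    Sum.elim (Sum.elim (fun _ => y t.1.1.1) fun _ => j t.1.1.2)
      (Sum.elim (fun _ => j t.2.1.1) fun _ => y t.2.1.2)
  obtain ⟨d₀, hd⟩ := cls_tw Γ s (a := Sum.map Sum.inl Sum.inr)
    (Sum.inl_injective.sumMap Sum.inr_injective)
    (sub.comp (Γ.regM_rm (Sum.elim (fun _ => .inl (.inr ())) fun _ => .inr (.inl ()))))
  filter_upwards [Filter.eventually_ge_atTop d₀] with d h i M hM
  rw [hY.ext_cls, hd (Sum.elim (Sum.elim 0 fun _ => d) (Sum.elim (fun _ => d) 0)) (d + i) ?_ ?_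
    (h.trans (Nat.le_add_right _ _)) _ ?_, Γ.box_cT]
  · congr 3
    · ext t
      constructor
      · rintro ⟨⟨a, b⟩, rfl⟩
        exact ⟨⟨_, a.2, rfl⟩, _, b.2, rfl⟩
      · rintro ⟨⟨a, ha, e1⟩, b, hb, e2⟩
        refine ⟨(⟨a, ha⟩, ⟨b, hb⟩), funext ?_⟩
        rintro (i | i)
        exacts [congrFun e1 i, congrFun e2 i]
    · funext l
      rcases l with (l | l) | l | l <;> rfl
  · rintro (i | i) <;> rfl
  · rintro ((l | l) | l | l) hl
    exacts [absurd rfl (hl (.inl l)), h, h, absurd rfl (hl (.inr l))]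
  · refine (Fn.ext hY (s := Sum.elim (fun _ (t : Z × W) => t.1.1.1) fun _ t => t.2.1.2)
      (hM.cgr (funext fun i => ?_) rfl)).cgr (funext fun i => ?_) ?_
    · rcases i with i | i <;> rfl
    · rcases i with i | i <;> rfl
    · simp [s, rj, hA.crd_pad]

theorem fn_cls {A υ : Type} [AddCommGroup A] [Fintype υ] {Q : ℕ} (D : AB Γ A Q)
    (hY : OPart Γ Δ u y) {L : Ideal (MvPolynomial υ K)} {Θ : Geo L A} {v : υ → σ}
    (hA : OPart Γ Θ v D.j) (Z : Set (Y × A)) (W : Set (A × Y)) :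
    ∀ᶠ d : ℕ in Filter.atTop, ∀ (i : ℕ) (M : GM J U2),
      Fn (Sum.elim (fun _ (t : Z × W) => Δ.p t.1.1.1) fun _ t => Δ.p t.2.1.2)
        ((Tav.crd fun t => Θ.p t.1.1.2) ^ d * (Tav.crd fun t => Θ.p t.2.1.1) ^ d *
          (Tav.crd fun t => Θ.p (t.1.1.2 - t.2.1.1)) ^ (d + i)) M →
      hY.ext U2 (cls M) = fgt out out_inj ((D.E D.dif ^ (d + i)) (boxG
        (Γ.cT ((fun s => Sum.elim (fun _ => y s.1) fun _ => D.j s.2) '' Z)
          (Sum.elim 0 fun _ => d))
        (Γ.cT ((fun s => Sum.elim (fun _ => D.j s.1) fun _ => y s.2) '' W)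
          (Sum.elim (fun _ => d) 0)))) := fn_cls' D.rj D.sub hY hA Z W

end Pool.Agent.Abt
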