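import Pool.Agent.P.MP_2ce3e7_ag.Abt.ConvA
import Pool.Agent.P.MP_2ce3e7_ag.Abt.Fn

/-! A diagonal in the span of the compositions is of abelian type. -/

set_option autoImplicit false

noncomputable section

namespace Pool.Agent.Abt

open Function Pool.Agent.Bav Pool.Agent.Bcv MvPolynomial Pool.Agent.Bav.Geo

/-- a linear form that kills a tail of the orbit under a unipotent map kills the orbit -/
theorem back {V : Type*} [AddCommGroup V] [Module ℂ V] (ψ : V →ₗ[ℂ] ℂ) {S : Module.End ℂ V}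
    (u : Unip S) {x : V} (h : ∀ᶠ d : ℕ in Filter.atTop, ψ ((S ^ d) x) = 0) : ψ x = 0 := by
  obtain ⟨d₀, h⟩ := Filter.eventually_atTop.1 h
  let W : Submodule ℂ V := ⨅ d : ℕ, LinearMap.ker (ψ ∘ₗ (S ^ d : Module.End ℂ V))
  have mW : ∀ v, v ∈ W ↔ ∀ d : ℕ, ψ ((S ^ d) v) = 0 := fun v => Submodule.mem_iInf _
  have kW : S ∈ Keep W := fun v hv => (mW _).2 fun d => by
    rw [← Module.End.mul_apply, ← pow_succ]
    exact (mW _).1 hv _
  have st : ∀ n : ℕ, (S ^ n) x ∈ W → x ∈ W := fun n => by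
    induction n with
    | zero => exact id
    | succ n ih =>
      rw [pow_succ', Module.End.mul_apply]
      exact fun e => ih (Unip.mem_of_apply u kW e)
  exact (mW _).1 (st d₀ ((mW _).2 fun d => by
    rw [← Module.End.mul_apply, ← pow_add]
    exact h _ le_add_self)) 0

variable {k σ τ υ X Y A : Type} [Field k] [IsAlgClosed k] [Fintype σ] [Fintype τ] [Fintype υ]
  {I : Ideal (MvPolynomial σ k)} {Γ : Geo I X} [AddCommGroup A] {Q : ℕ}

omit [IsAlgClosed k] in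
theorem fd_mul {T : Type} (W W' : Submodule k (T → k)) [FiniteDimensional k W]
    [FiniteDimensional k W'] : FiniteDimensional k (W * W' : Submodule k (T → k)) :=
  (Submodule.fg_iff_finiteDimensional _).1 (((Submodule.fg_iff_finiteDimensional W).2
    inferInstance).mul ((Submodule.fg_iff_finiteDimensional W').2 inferInstance))

theorem sh_pow (Z W : Set (U2 → X)) (d : ℕ) :
    (shG (Sum.elim (Sum.elim 0 1) (Sum.elim 1 0) : U2 ⊕ U2 → ℤ) ^ d : Module.End ℂ _)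
      (boxG (Γ.cT Z 0) (Γ.cT W 0)) =
      boxG (Γ.cT Z (Sum.elim 0 fun _ => d)) (Γ.cT W (Sum.elim (fun _ => d) 0)) := by
  rw [← shG_nsmul, shG_box, Γ.shG_cT, Γ.shG_cT]
  refine congrArg₂ (fun a b => boxG (Γ.cT Z a) (Γ.cT W b)) ?_ ?_ <;> funext i <;>
    rcases i with i | i <;> simp

theorem abT_of_mem (D : AB Γ A Q) {r : Y → τ → k} {Δ : Geo (Tav.idl r) Y} (hΔ : Δ.p = r)
    {u : τ → σ} {y : Y → X} (hY : OPart Γ Δ u y) {p : A → υ → k} (av : Tav.AV p D.g)
    {Θ : Geo (Tav.idl p) A} (hΘ : Θ.p = p) {v : υ → σ} (hA : OPart Γ Θ v D.j)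
    (h : Δ.cT {t | t (.inr ()) = t (.inl ())} 0 ∈ Submodule.span ℂ
      (Set.range fun s : G I U2 × G I U2 => hY.rst U2 (D.cmp s.1 s.2))) : AbT r := by
  refine ⟨A, υ, inferInstance, inferInstance, p, D.g, av, hΘ ▸ Θ.inj, fun l hl hZ M hM => ?_⟩
  obtain ⟨φ, hφ⟩ := exists_lift (fun M => (l M : ℂ))
    (fun M N P f g e => by rw [hl.1 M N P f g e, Rat.cast_add])
    fun M e => by rw [hl.2 M e, Rat.cast_zero]
  have key : ∀ z w, φ (hY.rst U2 (D.cmp z w)) = 0 := D.cmp_red hY hA φ fun Z W => by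
    refine back (φ ∘ₗ hY.rst U2 ∘ₗ fgt out out_inj ∘ₗ ((D.E D.dif - 1) ^ D.g : Module.End ℂ _))
      (unip_shG (Sum.elim (Sum.elim 0 1) (Sum.elim 1 0))) ?_
    filter_upwards [hZ Z W, fn_cls D hY hA Z W] with d h1 h2
    rw [sh_pow]
    have ex : ∀ i : ℕ, ∃ N : GM (Tav.idl r) U2,
        Fn (Sum.elim (fun _ (t : Z × W) => Δ.p t.1.1.1) fun _ t => Δ.p t.2.1.2)
        ((Tav.crd fun t => Θ.p t.1.1.2) ^ d * (Tav.crd fun t => Θ.p t.2.1.1) ^ d *
          (Tav.crd fun t => Θ.p (t.1.1.2 - t.2.1.1)) ^ (d + i)) N := fun i => by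
      have := fd_mul ((Tav.crd fun t : Z × W => Θ.p t.1.1.2) ^ d)
        ((Tav.crd fun t : Z × W => Θ.p t.2.1.1) ^ d)
      have := fd_mul ((Tav.crd fun t : Z × W => Θ.p t.1.1.2) ^ d *
        (Tav.crd fun t : Z × W => Θ.p t.2.1.1) ^ d)
        ((Tav.crd fun t : Z × W => Θ.p (t.1.1.2 - t.2.1.1)) ^ (d + i))
      refine exists_fn ?_ _
      have e := onX_pts Δ fun (t : Z × W) => (Sum.elim (fun _ => t.1.1.1) fun _ => t.2.1.2 : U2 → Y)
      refine (congrArg _ (funext fun t => funext fun a => ?_)).mp e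
      rcases a with ⟨a | a, b⟩ <;> rfl
    choose N hN using ex
    have h3 := h1 N (by rw [← hΘ]; exact fun i => (congrArg (fun s : Y → τ → k =>
      Fn (Sum.elim (fun _ (t : Z × W) => s t.1.1.1) fun _ t => s t.2.1.2) _ (N i)) hΔ).mp (hN i))
    have h4 := congrArg (fun x => φ (hY.rst U2 x)) (D.alt d
      (Γ.cT ((fun s => Sum.elim (fun _ => y s.1) fun _ => D.j s.2) '' Z) (Sum.elim 0 fun _ => d))
      (Γ.cT ((fun s => Sum.elim (fun _ => D.j s.1) fun _ => y s.2) '' W) (Sum.elim (fun _ => d) 0)))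
    simp only [map_sum, map_smul, ← h2 _ _ (hN _), hY.rst_ext, hφ, smul_eq_mul] at h4
    have h5 : ((∑ i ∈ Finset.range (D.g + 1), (-1) ^ i * D.g.choose i * l (N i) : ℚ) : ℂ) = 0 := by
      rw [h3, Rat.cast_zero]
    push_cast at h5
    exact (mul_eq_zero.1 (h4.symm.trans h5)).resolve_left (pow_ne_zero _ (neg_ne_zero.2 one_ne_zero))
  have h0 : φ (Δ.cT {t | t (.inr ()) = t (.inl ())} 0) = 0 :=
    (Submodule.span_le (p := LinearMap.ker φ)).2 (by rintro _ ⟨s, rfl⟩; exact key s.1 s.2) h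
  rw [← fn_diag Δ (M := M) (by rw [hΔ]; exact hM), hφ] at h0
  exact_mod_cast h0

end Pool.Agent.Abt
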