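import Pool.Agent.P.MP_2ce3e7_ag.Abt.Core
import Pool.Agent.P.MP_dd457d_ag.Bcv.Union
import Pool.Agent.P.MP_dd457d_ag.Bcv.Onto

/-! Compositions of reduced correspondences span all compositions. -/

set_option autoImplicit false

noncomputable section

namespace Pool.Agent.Abt

open Function Pool.Agent.Bav Pool.Agent.Bcv MvPolynomial Pool.Agent.Bav.Geo

variable {k σ τ υ ι X Y A : Type} [Field k] [IsAlgClosed k] [Fintype σ] [Fintype τ] [Fintype υ]
  [Fintype ι] {I : Ideal (MvPolynomial σ k)} {Γ : Geo I X} [AddCommGroup A] {Q : ℕ}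

/-- the classes of the closed subsets, without a shift, span the classes with given support -/
theorem supp_zero {V : Type*} [AddCommGroup V] [Module ℂ V] {T : Set (ι → X)} (hT : Γ.Cl T)
    (e : G I ι →ₗ[ℂ] V) (h : ∀ Z, Z ⊆ T → e (Γ.cT Z 0) = 0) {x : G I ι} (hx : x ∈ Γ.Supp T) :
    e x = 0 := by
  classical
  have main : ∀ P : Ideal (S σ k ι), Pr I P → Γ.VI T ≤ P → ∀ n, e (cy I P n) = 0 := by
    intro P
    induction P using IsNoetherian.induction with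
    | hgt P ih =>
    intro hP hl n
    by_cases hi : Irr P
    · rw [cy_irr hi, map_zero]
    obtain ⟨α, hα⟩ := exists_var_notMem hP.prime hi
    rw [cy_shift hP.gr hP.prime hP.le α hα (fun i => kil_of_primes fun R l a b c d =>
      ih R (lt_of_le_of_ne (le_sup_left.trans d) fun hh => hα i
        (hh ▸ d (Ideal.mem_sup_right (Ideal.mem_span_singleton_self _)))) ⟨a, b, c⟩
        (hl.trans (le_sup_left.trans d)) l) n 0]
    have := h (Γ.ZS P) ((Γ.ZS_anti hl).trans hT)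
    rwa [cT, Γ.VI_ZS hP hi] at this
  exact kpt_primes (W := LinearMap.ker e) (fun P n a b => main P a b n) hx

section part

variable {J : Ideal (MvPolynomial τ k)} {Δ : Geo J Y} {u : τ → σ} {y : Y → X}
  (h : OPart Γ Δ u y)
include h

omit [IsAlgClosed k] [Fintype σ] [Fintype τ] in
theorem on_iff (x : X) : x ∈ Set.range y ↔ ∀ l, l ∉ Set.range u → Γ.p x l = 0 := by
  refine ⟨?_, fun hx => by_contra fun e => Γ.ne x (funext fun l => ?_)⟩
  · rintro ⟨a, rfl⟩ l hl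
    rw [h.pon, extend_apply' _ _ _ hl]
    rfl
  · by_cases hl : l ∈ Set.range u
    · obtain ⟨t, rfl⟩ := hl
      exact h.poff x e t
    · exact hx l hl

omit [IsAlgClosed k] [Fintype σ] [Fintype τ] in
theorem off_iff (x : X) : x ∉ Set.range y ↔ ∀ t, Γ.p x (u t) = 0 := by
  refine ⟨h.poff x, ?_⟩
  rintro hx ⟨a, rfl⟩
  exact Δ.ne a (funext fun t => (h.p_on a t).symm.trans (hx t))

omit [Fintype τ] in
theorem cl_on (i : ι) : Γ.Cl {t : ι → X | t i ∈ Set.range y} := fun t ht =>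
  (on_iff h _).2 fun l hl => (Γ.ev_X t (i, l)).symm.trans (ht _ ((Γ.mem_VI (hg_X (i, l))).2
    fun s hs => (Γ.ev_X s (i, l)).trans ((on_iff h _).1 hs l hl)))

omit [Fintype τ] in
theorem cl_off (i : ι) : Γ.Cl {t : ι → X | t i ∉ Set.range y} := fun t ht =>
  (off_iff h _).2 fun l => (Γ.ev_X t (i, u l)).symm.trans (ht _ ((Γ.mem_VI (hg_X (i, u l))).2
    fun s hs => (Γ.ev_X s (i, u l)).trans ((off_iff h _).1 hs l)))

omit [Fintype τ] in
/-- every class is a sum of a class on the part and a class off the part -/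
theorem on_off (i : ι) (x : G I ι) : x ∈ Γ.Supp {t : ι → X | t i ∈ Set.range y} ⊔
    Γ.Supp {t : ι → X | t i ∉ Set.range y} := by
  refine Γ.supp_ind Γ.cl_univ (fun Z n _ _ hP _ => ?_) (Γ.mem_supp_univ x)
  by_cases hZ : Z ⊆ {t : ι → X | t i ∉ Set.range y}
  · exact Submodule.mem_sup_right (Γ.cT_mem_supp hZ n)
  obtain ⟨t, ht, h1⟩ := Set.not_subset.1 hZ
  obtain ⟨a, ha⟩ := not_forall.1 fun e => h1 ((off_iff h _).2 e)
  refine Submodule.mem_sup_left (Γ.cT_mem_supp (fun s hs => (on_iff h _).2 fun l hl => ?_) n)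
  have hm : (MvPolynomial.X (i, u a) * MvPolynomial.X (i, l) : S σ k ι) ∈ Γ.VI Z :=
    (Γ.mem_VI ((hg_X (i, u a)).mul (hg_X (i, l)))).2 fun z _ => by
      rw [map_mul, Γ.ev_X, Γ.ev_X]
      by_cases e : z i ∈ Set.range y
      · rw [(on_iff h _).1 e l hl, mul_zero]
      · rw [h.poff _ e a, zero_mul]
  rcases hP.prime.mem_or_mem hm with e | e
  · exact absurd ((Γ.ev_X t (i, u a)).symm.trans (Γ.ev_of_VI e ht)) ha
  · exact (Γ.ev_X s (i, l)).symm.trans (Γ.ev_of_VI e hs)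

theorem rst_off (i : ι) {x : G I ι} (hx : x ∈ Γ.Supp {t : ι → X | t i ∉ Set.range y}) :
    h.rst ι x = 0 :=
  supp_zero (cl_off h i) _ (fun Z hZ => by
    rw [h.rst_cT, show {s : ι → Y | y ∘ s ∈ Z} = ∅ from
      Set.eq_empty_of_forall_notMem fun s hs => hZ hs ⟨s i, rfl⟩, Δ.cT_empty]) hx

end part

variable (D : AB Γ A Q)

theorem AB.cmp_supp {Z W : Set (U2 → X)} {z w : G I U2} (hz : z ∈ Γ.Supp Z) (hw : w ∈ Γ.Supp W) :
    D.cmp z w ∈ Γ.Supp ((· ∘ out) '' prodT Z W) :=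
  Γ.fgt_supp _ _ (twA_supp (pow_mem (sub_mem (D.rg_dif ()).twA (one_mem _)) _)
    (Γ.box_supp hz hw))

/-- only the retractions of the inner slots matter -/
theorem AB.cmp_push {φ χ : (U2 → X) → U2 → X} (hφ : Γ.RegM φ) (hχ : Γ.RegM χ)
    (h1 : ∀ t, φ t (.inl ()) = t (.inl ())) (h2 : ∀ t, D.r (φ t (.inr ())) = D.r (t (.inr ())))
    (h3 : ∀ t, D.r (χ t (.inl ())) = D.r (t (.inl ()))) (h4 : ∀ t, χ t (.inr ()) = t (.inr ()))
    (z w : G I U2) : D.cmp (Γ.pushM φ z) (Γ.pushM χ w) = D.cmp z w := by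
  have r := regM_prod hφ hχ
  have e : ∀ (m : ℕ) (x : G I (U2 ⊕ U2)), ((D.E D.dif - 1) ^ m) (Γ.pushM
      (fun t => Sum.elim (φ (t ∘ Sum.inl)) (χ (t ∘ Sum.inr))) x) = Γ.pushM
      (fun t => Sum.elim (φ (t ∘ Sum.inl)) (χ (t ∘ Sum.inr))) (((D.E D.dif - 1) ^ m) x) := by
    intro m x
    induction m with
    | zero => rfl
    | succ m ih =>
      rw [pow_succ', Module.End.mul_apply, Module.End.mul_apply, ih, LinearMap.sub_apply,
        LinearMap.sub_apply, map_sub, AB.E, Γ.twF_pushM (D.rg_dif ()) r]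
      simp only [AB.dif, Sum.elim_inl, Sum.elim_inr, h2, h3, comp_apply, Module.End.one_apply]
  rw [AB.cmp, AB.cmp, ← Γ.pushM_box hφ hχ, e, ← Γ.pushM_rm, ← Γ.pushM_rm,
    Γ.pushM_comp r (Γ.regM_rm _)]
  refine congrArg (fun f => Γ.pushM f _) (funext fun t => funext fun i => ?_)
  rcases i with i | i
  exacts [h1 _, h4 _]

omit [Fintype υ] in
theorem AB.cmp_red {V : Type*} [AddCommGroup V] [Module ℂ V] {J : Ideal (MvPolynomial τ k)}
    {Δ : Geo J Y} {u : τ → σ} {y : Y → X} (hY : OPart Γ Δ u y) {L : Ideal (MvPolynomial υ k)}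
    {Θ : Geo L A} {v : υ → σ} (hA : OPart Γ Θ v D.j) (f : G J U2 →ₗ[ℂ] V)
    (h : ∀ (Z : Set (Y × A)) (W : Set (A × Y)), f (hY.rst U2 (D.cmp
      (Γ.cT ((fun s => Sum.elim (fun _ => y s.1) fun _ => D.j s.2) '' Z) 0)
      (Γ.cT ((fun s => Sum.elim (fun _ => D.j s.1) fun _ => y s.2) '' W) 0))) = 0)
    (z w : G I U2) : f (hY.rst U2 (D.cmp z w)) = 0 := by
  let B := D.cmpL.compr₂ (f ∘ₗ hY.rst U2)
  have c1 := (cl_on hY (.inl () : U2)).inter Γ (cl_on hA (.inr ()))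
  have c2 := (cl_on hA (.inl () : U2)).inter Γ (cl_on hY (.inr ()))
  have s1 : ∀ z ∈ Γ.Supp _, ∀ w ∈ Γ.Supp _, B z w = 0 := fun z hz w hw =>
    supp_zero c1 (B.flip w) (fun Z hZ => supp_zero c2 (B _) (fun W hW => by
      have := h ((fun s => Sum.elim (fun _ => y s.1) fun _ => D.j s.2) ⁻¹' Z)
        ((fun s => Sum.elim (fun _ => D.j s.1) fun _ => y s.2) ⁻¹' W)
      rwa [Set.image_preimage_eq_of_subset, Set.image_preimage_eq_of_subset] at this
      · intro t ht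
        obtain ⟨⟨a, ha⟩, b, hb⟩ := hW ht
        exact ⟨(a, b), funext fun i => by rcases i with i | i; exacts [ha, hb]⟩
      · intro t ht
        obtain ⟨⟨a, ha⟩, b, hb⟩ := hZ ht
        exact ⟨(a, b), funext fun i => by rcases i with i | i; exacts [ha, hb]⟩) hw) hz
  have r1 : Γ.RegM fun t : U2 → X =>
      Sum.elim (t ∘ Sum.inl) fun _ : Unit => D.j (D.r (t (.inr ()))) :=
    (Γ.regM_rm _).elim (AG.rg_r _)
  have r2 : Γ.RegM fun t : U2 → X =>
      Sum.elim (fun _ : Unit => D.j (D.r (t (.inl ())))) (t ∘ Sum.inr) :=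
    RegM.elim (AG.rg_r _) (Γ.regM_rm _)
  obtain ⟨z1, hz1, z2, hz2, rfl⟩ := Submodule.mem_sup.1 (on_off hY (.inl ()) z)
  obtain ⟨w1, hw1, w2, hw2, rfl⟩ := Submodule.mem_sup.1 (on_off hY (.inr ()) w)
  have o1 : ∀ w, B z2 w = 0 := fun w => by
    change f (hY.rst U2 (D.cmp z2 w)) = 0
    rw [rst_off hY (.inl ()) (Γ.Supp_mono ?_ (D.cmp_supp hz2 (Γ.mem_supp_univ w))), map_zero]
    rintro _ ⟨t, ht, rfl⟩
    exact ht.1
  have o2 : ∀ z, B z w2 = 0 := fun z => by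
    change f (hY.rst U2 (D.cmp z w2)) = 0
    rw [rst_off hY (.inr ()) (Γ.Supp_mono ?_ (D.cmp_supp (Γ.mem_supp_univ z) hw2)), map_zero]
    rintro _ ⟨t, ht, rfl⟩
    exact ht.2
  have o3 : B z1 w1 = 0 := by
    change f (hY.rst U2 (D.cmp z1 w1)) = 0
    rw [← D.cmp_push r1 r2 (fun _ => rfl) (fun _ => D.rj _) (fun _ => D.rj _) fun _ => rfl]
    refine s1 _ (Γ.Supp_mono ?_ (Γ.pushM_supp r1 (cl_on hY _) hz1)) _
      (Γ.Supp_mono ?_ (Γ.pushM_supp r2 (cl_on hY _) hw1))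
    · rintro _ ⟨t, ht, rfl⟩
      exact ⟨ht, _, rfl⟩
    · rintro _ ⟨t, ht, rfl⟩
      exact ⟨⟨_, rfl⟩, ht⟩
  change B (z1 + z2) (w1 + w2) = 0
  rw [map_add, o2, add_zero, map_add, LinearMap.add_apply, o1, o3, add_zero]

end Pool.Agent.Abt
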