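import Pool.Agent.P.MP_2ce3e7_ag.Abt.Defs
import Pool.Agent.P.MP_dd457d_ag.Bcv.Main

/-! Graphs of maps to a product of curves are compositions through an abelian variety. -/

set_option autoImplicit false
set_option linter.unusedSectionVars false

noncomputable section

namespace Pool.Agent.Abt

open Function Pool.Agent.Bav Pool.Agent.Bav.Geo Pool.Agent.Bcv Pool.Agent.Bcv.AG

variable {k σ τ ι κ X A : Type} [Field k] [IsAlgClosed k] {I : Ideal (MvPolynomial σ k)}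
  [Fintype σ] [Fintype τ] [Fintype ι] [Fintype κ] {Γ : Geo I X} [AddCommGroup A] {q : ℕ}

theorem diag_neg {D : AG Γ A τ q} {u : (ι → X) → A} (h : D.Rg u) (x : G I ι) :
    (lg (Γ.twF fun t : ι ⊕ Unit → X => D.h (u (t ∘ Sum.inl) - D.r (t (.inr ())))) ^ D.g)
      (boxG x D.one) = D.c • Γ.pushM (fun t => Sum.elim t fun _ => D.j (u t)) x := by
  have h0 : D.Rg fun t : ι ⊕ Unit → X => u (t ∘ Sum.inl) := h.comp (Γ.regM_rm _)
  have h1 : D.Rg fun t : ι ⊕ Unit → X => D.r (t (.inr ())) := rg_r _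
  have r1 := (Γ.regM_rm Sum.inl).elim (h0.sub h1)
  have key : ∀ t : ι ⊕ Unit → X, t ∘ Sum.inr ∈ Set.range (fun (y : A) (_ : Unit) => D.j y) →
      (Sum.elim (t ∘ Sum.inl) fun _ => D.j (D.r (t (.inr ())))) = t := by
    rintro t ⟨y, e⟩
    rw [show t (.inr ()) = D.j y from (congrFun e ()).symm, D.rj,
      show (fun _ => D.j y) = t ∘ Sum.inr from e, Sum.elim_comp_inl_inr]
  rw [one, ← shear_on Γ r1 r1 ?_ ?_ (fun _ _ => rfl) (fun _ _ => rfl),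
    lgp_push Γ (h0.sub h1).h r1]
  · simp only [Sum.elim_inr, Sum.elim_comp_inl, D.rj, sub_sub_cancel]
    rw [show (fun t : ι ⊕ Unit → X => D.h (D.r (t (.inr ())))) =
      fun t => (fun s : Unit → X => D.h (D.r (s ()))) (t ∘ Sum.inr) from rfl,
      lgp_right Γ D.hr, D.pt, map_smul, map_smul, Γ.box_point,
      Γ.pushM_comp (φ := fun t => Sum.elim t fun _ => D.j 0)
        ((Γ.regM_rm id).elim (Γ.regM_const _)) r1]
    simp only [Sum.elim_inr, Sum.elim_comp_inl, D.rj, sub_zero]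
  all_goals
    intro t ht
    refine ⟨⟨_, rfl⟩, ?_⟩
    simp only [Sum.elim_inr, Sum.elim_comp_inl, D.rj, sub_sub_cancel]
    exact key t ht

/-- no power of six is a prime power -/
theorem good_six (z : ℂ) : Good 6 z := by
  rintro e he ⟨l, E, -, hl, h, -⟩
  have key : ∀ p : ℕ, p.Prime → p ∣ 6 → p = l := fun p hp h6 =>
    (Nat.prime_dvd_prime_iff_eq hp hl).1 (hp.dvd_of_dvd_pow (h ▸ h6.trans (dvd_pow_self 6 he)))
  exact absurd ((key 2 Nat.prime_two (by norm_num)).trans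
    (key 3 Nat.prime_three (by norm_num)).symm) (by norm_num)

/-- the same data without Frobenius -/
def cst (D : AG Γ A τ q) : AG Γ A τ 6 :=
  { D with
    F := fun _ a => a
    Fr := fun _ => rg_r (D := D) () ()
    sp := mem_congr (SP.geo 1 (.inr (good_six 1))) fun n => by rw [one_pow, one_smul] }

/-- compositions -/
def Cm (D : AG Γ A τ q) (ι : Type) [Fintype ι] (T : Set (κ → X)) : Submodule ℂ (G I (ι ⊕ κ)) :=
  Submodule.span ℂ {x | ∃ z : G I (ι ⊕ Unit), ∃ w ∈ Γ.Supp (prodT T (Set.univ : Set (Unit → X))),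
    x = fgt (Sum.map Sum.inl Sum.inl) (Sum.inl_injective.sumMap Sum.inl_injective)
      ((lg (Γ.twF fun t : (ι ⊕ Unit) ⊕ (κ ⊕ Unit) → X =>
        D.h (D.r (t (.inl (.inr ()))) - D.r (t (.inr (.inr ()))))) ^ D.g) (boxG z w))}

variable {D : AG Γ A τ q} {a : (ι → X) → A} {w : G I κ} {T : Set (κ → X)}

theorem fam_cm (h : D.Rg a) {Φ : ℕ → Module.End ℂ (G I (ι ⊕ κ))} (hΦ : Φ ∈ (cst D).Fam κ a)
    (hw : w ∈ Γ.Supp T) (z : G I ι) : Φ 0 (boxG z w) ∈ Cm D ι T := by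
  obtain ⟨-, R, S, h0, h1, h2⟩ := hΦ
  have r0 : D.Rg fun t : (ι ⊕ Unit) ⊕ (κ ⊕ Unit) → X =>
      D.r (t (.inl (.inr ()))) - D.r (t (.inr (.inr ()))) := (rg_r _).sub (rg_r _)
  have r1 : Γ.RegM fun t : ι → X => Sum.elim t fun _ : Unit => D.j (a t) :=
    (Γ.regM_rm id).elim h
  have r2 : D.Rg fun t : (ι ⊕ Unit) ⊕ κ → X => D.r (t (.inl (.inr ()))) := rg_r _
  have r3 := Γ.regM_rm ((Equiv.sumAssoc (ι ⊕ Unit) κ Unit).symm)
  have r4 := regM_prod r1 (Γ.regM_rm (id : κ → κ))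
  have r5 : Γ.RegM fun t : (ι ⊕ Unit) ⊕ κ → X =>
      Sum.elim t fun _ : Unit => D.j (D.r (t (.inl (.inr ())))) := (Γ.regM_rm id).elim r2
  have e1 := lgp_push Γ r0.h r3 D.g 
    (boxG (boxG (Γ.pushM (fun t => Sum.elim t fun _ : Unit => D.j (a t)) z) w) D.one)
  erw [diag_neg r2, ← pushM_box_left r1, Γ.pushM_comp r4 r5, map_smul,
    Γ.pushM_comp (r5.comp r4) r3] at e1
  rw [pushM_box_left r1, Γ.pushM_assoc] at e1
  have e2 : Γ.pushM ((cst D).emb κ a 0) (boxG z w) = D.c⁻¹ • _ :=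
    ((inv_smul_eq_iff₀ D.hc).2 (e1.trans (by
      congr 3
      funext t i
      rcases i with (i | i) | (i | i) <;> simp [emb, cst, D.rj]))).symm
  have e3 := congrArg (Γ.pushM fun t => t ∘ Sum.map Sum.inl Sum.inl) (h2 0 (boxG z w))
  rw [Γ.pushM_comp (regM_emb (D := cst D) h 0) (Γ.regM_rm _),
    show (fun t => (cst D).emb κ a 0 t ∘ Sum.map Sum.inl Sum.inl) = fun t => t from
      funext fun t => funext fun i => by rcases i with i | i <;> rfl, Γ.pushM_id, e2, map_smul,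
    map_smul, ← Module.End.mul_apply, (twA_comm h0.1 (pow_mem r0.h.lg_twA _)).eq,
    Module.End.mul_apply, h1, Γ.pushM_rm _ (Sum.inl_injective.sumMap Sum.inl_injective)] at e3
  exact e3 ▸ Submodule.smul_mem _ _ (Submodule.subset_span
    ⟨_, _, twA_supp h0.2 (Γ.box_supp hw (Γ.mem_supp_univ _)), rfl⟩)

theorem alg_cm (h : D.Rg a) {E : ℕ → Module.End ℂ (G I (ι ⊕ κ))} (hE : E ∈ (cst D).Alg a w)
    (hw : w ∈ Γ.Supp T) (z : G I ι) : E 0 (boxG z w) ∈ Cm D ι T := by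
  refine (Submodule.span_le.2 ?_ : (cst D).Seq a w ≤ (Cm D ι T).comap (LinearMap.proj 0))
    (hE (fun _ => boxG z w)
      (Submodule.subset_span ⟨0, z, 1, one_mem _, funext fun n => by simp⟩))
  rintro _ ⟨i, z, Φ, hΦ, rfl⟩
  exact Submodule.smul_mem _ _ (fam_cm h hΦ hw z)

/-- the relation for the secant map in the slot `i` -/
def Rel0 (D : AG Γ A τ q) (a : (ι → X) → A) (c : CX Γ) (x : (ι → X) → X) (i : κ) : Prop :=
  ∃ (N n₀ n₁ n₂ n₃ : ℕ) (u : X → Fin n₀ → k) (u' : X → Fin n₁ → k) (V : A → X → Fin n₂ → k)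
    (V' : A → X → Fin n₃ → k), N ≠ 0 ∧ (Γ.RegF fun t => u (x t)) ∧ (Γ.RegF fun t => u' (x t)) ∧
    (R2 Γ fun y z => V (D.r y) z) ∧ (R2 Γ fun y z => V' (D.r y) z) ∧
      (N : ℂ) • lg (Γ.twF fun t : ι ⊕ κ → X => c.s (x (t ∘ Sum.inl)) (t (.inr i))) +
          lg (Γ.twF fun t : ι ⊕ κ → X => u (x (t ∘ Sum.inl))) +
          lg (Γ.twF fun t : ι ⊕ κ → X => V (a (t ∘ Sum.inl)) (t (.inr i))) =
        lg (Γ.twF fun t : ι ⊕ κ → X => u' (x (t ∘ Sum.inl))) +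
          lg (Γ.twF fun t : ι ⊕ κ → X => V' (a (t ∘ Sum.inl)) (t (.inr i)))

theorem op_mem0 (ha : D.Rg a) {c : CX Γ} {x : (ι → X) → X}
    (hx : Γ.RegF fun t => Γ.p (x t)) {i : κ} (h : Rel0 D a c x i) :
    (fun _ => c.op (fun t : ι ⊕ κ → X => x (t ∘ Sum.inl)) (.inr i)) ∈ (cst D).Alg a w := by
  obtain ⟨N, _, _, _, _, u, u', V, V', hN, r0, r1, r2, r3, h⟩ := h
  have h1 : Γ.RegF fun t : ι ⊕ κ → X => Γ.p (x (t ∘ Sum.inl)) := hx.comp (Γ.regM_rm Sum.inl)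
  have h2 : Γ.RegF fun t : ι ⊕ κ → X => c.s (x (t ∘ Sum.inl)) (t (.inr i)) :=
    c.rs.comp (φ := fun t => Sum.elim (fun _ => x (t ∘ Sum.inl))
      fun _ => t (.inr i)) (RegM.elim (fun _ => h1) fun _ => Γ.regF_proj _)
  have ha' : (cst D).Rg a := ha
  have h3 := ((cst D).Alg a w).smul_mem (sub_mem (sub_mem (add_mem (lg_left r1)
    (fam_mem ha' r3 i)) (fam_mem ha' r2 i)) (lg_left r0)) (N : ℂ)⁻¹
  have h4 := (twF_mem (fun _ => h2)
    ((congrArg (· ∈ (cst D).Alg a w) (funext fun n => ?_)).mp h3)).1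
  · exact sub_mem (one_mem _) (mul_mem (mul_mem h4 (iv_mem (fun _ => h1) (lg_left hx)))
      (iv_mem (fun _ => Γ.regF_proj _) (fam_mem ha' (V := fun _ z => Γ.p z) (Γ.regF_proj _) i)))
  · rw [Pi.smul_apply, Pi.sub_apply, Pi.sub_apply, Pi.add_apply]
    erw [← h]
    erw [add_sub_cancel_right]
    rw [add_sub_cancel_right, inv_smul_smul₀ (Nat.cast_ne_zero.2 hN)]

theorem graph_cm (hD : Bcv.S_Diag Γ ι κ) (ha : D.Rg a) (c : κ → CX Γ) {ψ : (ι → X) → κ → X}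
    (hψ : Γ.RegM ψ) (h : ∀ t i, ψ t i ∈ (c i).C) (R : ∀ i, Rel0 D a (c i) (fun t => ψ t i) i)
    (z : G I ι) : Γ.pushM (fun t => Sum.elim t (ψ t)) z ∈ Cm D ι {y | ∀ i, y i ∈ (c i).C} := by
  have h1 := list_prod_mem (S := (cst D).Alg a (Γ.cT {y | ∀ i, y i ∈ (c i).C} 0))
    (l := (Finset.univ : Finset κ).toList.map fun i _ =>
      (c i).op (fun t : ι ⊕ κ → X => ψ (t ∘ Sum.inl) i) (.inr i)) fun E hE => by
      obtain ⟨i, -, rfl⟩ := List.mem_map.1 hE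
      exact op_mem0 ha (hψ i) (R i)
  have h2 := alg_cm ha h1 (Γ.cT_mem_supp subset_rfl 0) z
  rw [Pi.list_prod_apply, List.map_map] at h2
  exact hD c hψ h z ▸ h2

theorem cm_push {Q : ℕ} (D : AB Γ A Q) (nil : (D.E D.dif - 1) ^ (D.g + 1) = 0)
    {f : (ι → X) → X} {f' : (κ → X) → X} (hf : Γ.RegF fun t => Γ.p (f t))
    (hf' : Γ.RegF fun t => Γ.p (f' t)) {x : G I (ι ⊕ κ)} (hx : x ∈ Cm D.toAG ι T) :
    Γ.pushM (fun t => Sum.elim (fun _ => f (t ∘ Sum.inl)) fun _ => f' (t ∘ Sum.inr)) x ∈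
      Submodule.span ℂ (Set.range fun s : G I U2 × G I U2 => D.cmp s.1 s.2) := by
  refine Submodule.mem_comap.1 ((Submodule.span_le.2 ?_ : Cm D.toAG ι T ≤ _) hx)
  rintro _ ⟨z, w, -, rfl⟩
  have r1 : Γ.RegM fun t : ι ⊕ Unit → X =>
      (Sum.elim (fun _ => f (t ∘ Sum.inl)) (t ∘ Sum.inr) : U2 → X) :=
    RegM.elim (fun _ => hf.comp (Γ.regM_rm _)) (Γ.regM_rm _)
  have r2 : Γ.RegM fun t : κ ⊕ Unit → X =>
      (Sum.elim (t ∘ Sum.inr) (fun _ => f' (t ∘ Sum.inl)) : U2 → X) :=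
    RegM.elim (Γ.regM_rm _) fun _ => hf'.comp (Γ.regM_rm _)
  have r3 : D.toAG.Rg D.dif := (rg_r _).sub (rg_r _)
  refine Submodule.mem_comap.2 (Submodule.subset_span ⟨(Γ.pushM (fun t : ι ⊕ Unit → X =>
    Sum.elim (fun _ => f (t ∘ Sum.inl)) (t ∘ Sum.inr)) z, Γ.pushM (fun t : κ ⊕ Unit → X =>
      Sum.elim (t ∘ Sum.inr) fun _ => f' (t ∘ Sum.inl)) w), ?_⟩)
  dsimp only
  have e : D.E D.dif = Γ.twF fun t => D.h (D.dif t) := by simp only [AB.E, D.hh]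
  rw [AB.cmp, ← lg_pow_top nil, ← Γ.pushM_box r1 r2, e, lgp_push Γ r3.h (regM_prod r1 r2),
    ← Γ.pushM_rm, Γ.pushM_comp (regM_prod r1 r2) (Γ.regM_rm _)]
  rw [← Γ.pushM_rm, Γ.pushM_comp (Γ.regM_rm _) (RegM.elim (fun _ => hf.comp (Γ.regM_rm _))
    fun _ => hf'.comp (Γ.regM_rm _))]
  congr 2
  funext t i
  rcases i with i | i <;> rfl

end Pool.Agent.Abt
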