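import Pool.Agent.P.MP_dd457d_ag.Bcv.Psi
import Pool.Agent.P.MP_dd457d_ag.Bcv.Frob

/-! Composition of correspondences through an abelian variety. -/

set_option autoImplicit false

noncomputable section

namespace Pool.Agent.Abt

open Function Pool.Agent.Bav Pool.Agent.Bcv

/-- two slots -/
abbrev U2 : Type := Unit ⊕ Unit

/-- the outer slots among four -/
abbrev out : U2 → U2 ⊕ U2 := Sum.map Sum.inl Sum.inr

theorem out_inj : Injective out := Sum.inl_injective.sumMap Sum.inr_injective

variable {σ k ι X : Type} [Field k] [IsAlgClosed k] {I : Ideal (MvPolynomial σ k)} [Fintype σ]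
  [Fintype ι]

/-- an abelian variety inside `X` with its own polarisation, and Frobenius -/
structure AB (Γ : Geo I X) (A : Type) [AddCommGroup A] (Q : ℕ) extends AG Γ A σ Q where
  hh : ∀ a, h a = Γ.p (j a)
  top : ((shG 1 - 1 : Module.End ℂ (G I Unit)) ^ (g + 1))
    (Γ.cT (Set.range fun (y : A) (_ : Unit) => j y) 0) = 0
  fr : X → X
  isFr : Γ.IsFr Q fr
  φ : A →+ A
  rφ : ∀ x, r (fr x) = φ (r x)
  jφ : ∀ a, j (φ a) = fr (j a)
  Fφ : ∀ n a, F n a = φ^[n] a

variable {Γ : Geo I X} {A : Type} [AddCommGroup A] {Q : ℕ} (D : AB Γ A Q)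

/-- the twist along a map to the abelian variety -/
def AB.E (u : (ι → X) → A) : Module.End ℂ (G I ι) := Γ.twF fun t => Γ.p (D.j (u t))

/-- the difference of the inner slots -/
def AB.dif (t : U2 ⊕ U2 → X) : A := D.r (t (.inl (.inr ()))) - D.r (t (.inr (.inl ())))

/-- the composition, up to the degree of the polarisation -/
def AB.cmp (z w : G I U2) : G I U2 := fgt out out_inj (((D.E D.dif - 1) ^ D.g) (boxG z w))

/-- Frobenius in the second slot -/
def AB.ph (n : ℕ) (t : U2 → X) : U2 → X := Sum.elim (t ∘ Sum.inl) (D.fr^[n] ∘ t ∘ Sum.inr)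

end Pool.Agent.Abt
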