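import Pool.Agent.P.MP_dd457d_ag.Bcv.Frob
import Pool.Agent.P.MP_dd457d_ag.Bav.FilK

/-! The power map acts on classes with a spanning family of eigenvectors. -/

set_option autoImplicit false

noncomputable section

namespace Pool.Agent.Bav

section Lin
open Polynomial

variable {V : Type*} [AddCommGroup V] [Module ℂ V] (T : Module.End ℂ V)

/-- the span of the eigenvectors with eigenvalue in `Λ` -/
def Eig (Λ : Set ℂ) : Submodule ℂ V := Submodule.span ℂ {w | ∃ z ∈ Λ, T w = z • w}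

variable {T} {Λ Λ' : Set ℂ} {x : V}

theorem Eig.mono (h : Λ ⊆ Λ') : Eig T Λ ≤ Eig T Λ' :=
  Submodule.span_mono fun _ ⟨z, hz, e⟩ => ⟨z, h hz, e⟩

theorem Eig.step {z : ℂ} (hz : z ∉ Λ) (h : T x - z • x ∈ Eig T Λ) : x ∈ Eig T (insert z Λ) := by
  have key : Eig T Λ ≤ (Eig T Λ).map (T - z • (1 : Module.End ℂ V)) := by
    refine Submodule.span_le.2 ?_
    rintro w ⟨y, hy, e⟩
    have h0 : y - z ≠ 0 := sub_ne_zero.2 fun e => hz (e ▸ hy)
    refine ⟨(y - z)⁻¹ • w, Submodule.smul_mem _ _ (Submodule.subset_span ⟨y, hy, e⟩), ?_⟩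
    rw [map_smul, LinearMap.sub_apply, LinearMap.smul_apply, Module.End.one_apply, e, ← sub_smul,
      inv_smul_smul₀ h0]
  obtain ⟨v, hv, e⟩ := key h
  rw [LinearMap.sub_apply, LinearMap.smul_apply, Module.End.one_apply] at e
  rw [← sub_add_cancel x v]
  refine Submodule.add_mem _ (Submodule.subset_span ⟨z, Set.mem_insert _ _, ?_⟩)
    (Eig.mono (Set.subset_insert _ _) hv)
  rw [map_sub, smul_sub, sub_eq_sub_iff_sub_eq_sub, e]

theorem Eig.poly (s : Multiset ℂ) (hs : s.Nodup) (h1 : ∀ z ∈ s, z ∉ Λ) : ∀ x : V,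
    aeval T (s.map fun z => X - C z).prod x ∈ Eig T Λ → x ∈ Eig T (Λ ∪ {z | z ∈ s}) := by
  induction s using Multiset.induction_on with
  | empty => exact fun x h => Eig.mono Set.subset_union_left (by simpa using h)
  | cons z s ih =>
    intro x h
    rw [Multiset.nodup_cons] at hs
    rw [Multiset.map_cons, Multiset.prod_cons, mul_comm, map_mul, Module.End.mul_apply] at h
    have h2 := ih hs.2 (fun y hy => h1 y (Multiset.mem_cons_of_mem hy)) _ h
    rw [map_sub, aeval_X, aeval_C, LinearMap.sub_apply, Module.algebraMap_end_apply] at h2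
    refine Eig.mono ?_ (Eig.step (fun hz => hz.elim (h1 z (Multiset.mem_cons_self _ _)) hs.1) h2)
    rintro y (rfl | hy | hy)
    · exact Or.inr (Multiset.mem_cons_self _ _)
    · exact Or.inl hy
    · exact Or.inr (Multiset.mem_cons_of_mem hy)

theorem Eig.pow {e : ℕ} (he : e ≠ 0) {a : ℂ} (ha : a ≠ 0) (h1 : ∀ z ∈ Λ, z ^ e ≠ a)
    (h : (T ^ e) x - a • x ∈ Eig T Λ) : x ∈ Eig T (Λ ∪ {z | z ^ e = a}) := by
  have h2 : ∀ z ∈ (X ^ e - C a : ℂ[X]).roots, z ^ e = a := fun z hz =>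
    (mem_nthRoots (Nat.pos_of_ne_zero he)).1 hz
  refine Eig.mono (Set.union_subset_union_right _ h2) (Eig.poly _
    (nodup_roots (separable_X_pow_sub_C a (Nat.cast_ne_zero.2 he) ha))
    (fun z hz hΛ => h1 z hΛ (h2 z hz)) x ?_)
  rw [← (IsAlgClosed.splits _).eq_prod_roots_of_monic (monic_X_pow_sub_C a he), map_sub, map_pow,
    aeval_X, aeval_C, LinearMap.sub_apply, Module.algebraMap_end_apply]
  exact h

end Lin

open MvPolynomial

section Top
variable {σ k ι : Type} [Field k] {I : Ideal (MvPolynomial σ k)} [DecidableEq ι] [Fintype σ]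
  [Fintype ι]

theorem top_ops {Φ : Module.End ℂ (G I ι)} {q : ℕ}
    (h1 : ∀ i x, shG (Pi.single i 1) (Φ x) = Φ ((shG (Pi.single i 1) ^ q) x)) (s : ι →₀ ℕ) :
    ∃ A B : Module.End ℂ (G I ι), (∀ x, A (Φ x) = Φ (B x)) ∧ Low s.degree A ∧
      Low (s.degree + 1) (B - (q : ℂ) ^ s.degree • A) ∧
      ∀ (x : G I ι) (p : MvPolynomial ι ℚ), Tav.Dg p s.degree →
        (Tav.Lg fun d => chi (shG (nz d) x) = (Tav.evN d p : ℚ)) →
        Tav.Lg fun d => chi (shG (nz d) (A x)) = (Tav.nc s p : ℚ) := by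
  induction s using Tav.deg_induction with
  | h0 =>
    refine ⟨1, 1, fun _ => rfl, by simpa using low_one, by simpa using low_zero 1,
      fun x p hp h => h.mono fun d hd => ?_⟩
    have h2 : p = C (coeff 0 p) := totalDegree_eq_zero_iff_eq_C.1
      (Nat.le_zero.1 (Tav.dg_iff.1 hp))
    rw [Module.End.one_apply, hd, Tav.nc_zero, h2, Tav.evN_C, coeff_zero_C]
  | h1 s i ih =>
    obtain ⟨A, B, a, b, c, f⟩ := ih
    have hT := (isSh_shG (I := I) (Pi.single i 1)).low
    have hd : (s + Finsupp.single i 1).degree = s.degree + 1 := by simp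
    rw [hd]
    refine ⟨A * (shG (Pi.single i 1) - 1), B * (shG (Pi.single i 1) ^ q - 1), fun x => ?_,
      b.mul hT, ?_, fun x p hp h => ?_⟩
    · rw [Module.End.mul_apply, Module.End.mul_apply, ← a, LinearMap.sub_apply,
        LinearMap.sub_apply, h1, map_sub Φ]
      rfl
    · have e := (c.mul (hT.unip q).1).add ((b.mul (hT.unip q).2).smul ((q : ℂ) ^ s.degree))
      refine (congrArg _ ?_).mp e
      simp only [mul_sub, sub_mul, smul_sub, smul_mul_assoc, mul_smul_comm, smul_smul, pow_succ,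
        mul_one]
      abel
    · have h2 := f ((shG (Pi.single i 1) - 1 : Module.End ℂ _) x)
        (Tav.sh (fun l => ((Pi.single i 1 : ι → ℕ) l : ℚ)) p - p)
        ((hp.sh_sub _).mono (by omega)) ((h.and (h.add (Pi.single i 1))).mono fun d hd => by
          have e : nz (d + Pi.single i 1) = nz d + Pi.single i 1 := by
            funext l
            simp [nz, Pi.single_apply]
          rw [map_sub, Tav.evN_sh, Rat.cast_sub, ← hd.1, ← hd.2, LinearMap.sub_apply, map_sub,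
            map_sub, e, shG_add]
          rfl)
      refine h2.mono fun d hd => ?_
      rw [Module.End.mul_apply, hd, hp.nc_sh_sub _ (by simp)]
      simp [Pi.single_apply]

/-- operators that behave like the `q`-th power map in all slots -/
theorem frob_all {Φ : Module.End ℂ (G I ι)} {q j : ℕ} {P : Ideal (S σ k ι)}
    (h1 : ∀ i x, shG (Pi.single i 1) (Φ x) = Φ ((shG (Pi.single i 1) ^ q) x))
    (h2 : ∀ x, chi (Φ x) = chi x) (h : Pr I P) (hd : DimJ (j + 1) P) {n : ι → ℤ}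
    (hs : Φ (cy I P n) ∈ Sup I P) : Φ (cy I P n) - (q : ℂ) ^ j • cy I P n ∈ Fil I ι j := by
  by_cases hj : DimJ j P
  · exact Submodule.sub_mem _ (sup_le_fil h.gr hj hs) (Submodule.smul_mem _ _ (h.mem_fil hj n))
  obtain ⟨c, hc⟩ := h.exists_mul hd n hs
  have hp : Tav.Dg (pJ P) j := Tav.Dg.mono hd (by omega)
  obtain ⟨s, rfl, h3⟩ := Tav.exists_top hp hj
  obtain ⟨A, B, a, b, e, f⟩ := top_ops h1 s
  obtain ⟨N, hN⟩ := f (cy I P 0) _ hp ((isChi_fil.lg h.gr h.le).mono fun d hd => by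
    rw [(isSh_shG _).cy h.gr h.le, zero_add, hd])
  have h4 := hN _ fun _ => le_rfl
  beta_reduce at h4
  rw [(isSh_shG _).fix (b 1 _ (by rw [add_comm]; exact h.mem_fil hd 0)),
    ← sub_eq_zero.1 ((map_sub A _ _).symm.trans (b.apply (h.shift hd 0 n)))] at h4
  have h5 := b.apply hc
  have h6 := e.apply (h.mem_fil hd n)
  rw [LinearMap.sub_apply, sub_eq_zero, LinearMap.smul_apply] at h6
  rw [map_sub, sub_eq_zero, a, h6, map_smul, map_smul] at h5
  have h7 := congrArg chi h5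
  rw [map_smul, map_smul, h2, h4] at h7
  rw [mul_right_cancel₀ (Rat.cast_ne_zero.2 h3) h7]
  exact hc

end Top

variable {σ k ι X : Type} [Field k] [IsAlgClosed k] {I : Ideal (MvPolynomial σ k)} [Fintype σ]
  [Fintype ι] {Γ : Geo I X} {Q : ℕ} {F : X → X}

namespace Geo

theorem IsFr.push_pow (h : Γ.IsFr Q F) (m : ℕ) (x : G I ι) :
    ((Γ.pushM (fun t => F ∘ t) : Module.End ℂ (G I ι)) ^ m) x =
      Γ.pushM (fun t => F^[m] ∘ t) x := by
  induction m with
  | zero => exact (Γ.pushM_id x).symm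
  | succ m ih =>
    rw [pow_succ', Module.End.mul_apply, ih, Γ.pushM_comp (h.iter m).regM h.regM,
      Function.iterate_succ']
    rfl

variable (k₀ : Type) [Field k₀] [Fintype k₀] [Algebra k₀ k] [Algebra.IsAlgebraic k₀ k]

theorem IsFr.fil [DecidableEq ι] {e₀ : ℕ} (h : Γ.IsFr (Fintype.card k₀ ^ e₀) F) {j : ℕ}
    {x : G I ι} (hx : x ∈ Fil I ι (j + 1)) : ∃ e ≠ 0,
      ((Γ.pushM (fun t => F ∘ t) : Module.End ℂ (G I ι)) ^ e) x -
        (((Fintype.card k₀ ^ e₀ : ℕ) : ℂ) ^ e) ^ j • x ∈ Fil I ι j := by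
  obtain ⟨e, he, h1⟩ := fil_multiple (fun m => Γ.pushM (fun t => F^[m] ∘ t) -
      (((Fintype.card k₀ ^ e₀ : ℕ) : ℂ) ^ m) ^ j • LinearMap.id) (Fil I ι j) (fun P n a _ c => by
    obtain ⟨e, he, h2⟩ := exists_stable k₀ P
    refine ⟨e, he, fun t _ => ?_⟩
    have h3 := h.iter (e * t)
    have := frob_all (fun i z => by
      rw [← h3.twF i, ← Γ.twF_proj i]
      exact Γ.twF_pushM (Γ.regF_proj i) h3.regM z) (Γ.chi_pushM h3.regM) a c (n := n)
      (Γ.pushM_sup h3.regM a.gr a.gr (by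
        rintro _ ⟨y, hy, rfl⟩ f hf
        choose l _ hl using fun i => h3 (y i)
        have h4 := a.gr.eval_scale (h2 (t * e₀) (xp Γ.p y) hy) l f hf
        rw [Nat.card_eq_fintype_card, ← mul_assoc, mul_comm _ e₀, pow_mul] at h4
        rw [fil_ev, ← h4]
        exact congrArg (eval · f) (funext fun v => congrFun (hl v.1) v.2)) n)
    rwa [Nat.cast_pow] at this) hx
  have := h1 1 one_ne_zero
  rw [mul_one] at this
  exact ⟨e, he, by rw [h.push_pow]; exact this⟩

/-- every class is a sum of eigenvectors of the power map -/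
theorem IsFr.eig {e₀ : ℕ} (h0 : e₀ ≠ 0) (h : Γ.IsFr (Fintype.card k₀ ^ e₀) F) (x : G I ι) :
    x ∈ Eig (Γ.pushM (fun t => F ∘ t) : Module.End ℂ (G I ι))
      {z | ∃ e i : ℕ, e ≠ 0 ∧ z ^ e = (((Fintype.card k₀ ^ e₀ : ℕ) : ℂ) ^ e) ^ i} := by
  classical
  have hQ : 1 < Fintype.card k₀ ^ e₀ := Nat.one_lt_pow h0 Fintype.one_lt_card
  have key : ∀ j, ∀ x ∈ Fil I ι j, x ∈ Eig (Γ.pushM (fun t => F ∘ t) : Module.End ℂ (G I ι))
      {z | ∃ e i : ℕ, i < j ∧ e ≠ 0 ∧ z ^ e = (((Fintype.card k₀ ^ e₀ : ℕ) : ℂ) ^ e) ^ i} := by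
    intro j
    induction j with
    | zero => exact fun x hx => bot_le (α := Submodule ℂ _) (Fil_zero.le hx)
    | succ j ih =>
      intro x hx
      obtain ⟨e, he, h1⟩ := h.fil k₀ hx
      refine Eig.mono ?_ (Eig.pow he
        (pow_ne_zero _ (pow_ne_zero _ (Nat.cast_ne_zero.2 (by omega)))) ?_ (ih _ h1))
      · rintro z (⟨e', i, a, b⟩ | a)
        · exact ⟨e', i, by omega, b⟩
        · exact ⟨e, j, by omega, he, a⟩
      · rintro z ⟨e', i, a, b, c⟩ d
        have h2 : (z ^ e) ^ e' = (z ^ e') ^ e := by rw [← pow_mul, mul_comm, pow_mul]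
        rw [c, d] at h2
        simp only [← pow_mul] at h2
        have h3 := Nat.pow_right_injective hQ (Nat.cast_injective (R := ℂ) (by
          simpa only [Nat.cast_pow] using h2))
        have h4 : e * e' * j = e * e' * i := by linarith
        exact a.ne' (mul_left_cancel₀ (mul_ne_zero he b) h4)
  refine Eig.mono ?_
    (key ((pJ (IX I ι)).totalDegree + 1) x ((Fil_top Γ.hom ?_).ge Submodule.mem_top))
  · rintro z ⟨e, i, -, b⟩
    exact ⟨e, i, b⟩
  · exact (Tav.dg_iff.2 le_rfl).mono (by omega)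

end Geo

end Pool.Agent.Bav

namespace Pool.Agent.Abt

open Pool.Agent.Bav MvPolynomial

variable (k : Type) [Field k] [Fintype k] {σ ι X : Type} [Fintype σ] [Fintype ι]
  {I : Ideal (MvPolynomial σ (AlgebraicClosure k))} {Γ : Geo I X}

theorem eig_top {e : ℕ} (he : e ≠ 0) {F : X → X} (h : Γ.IsFr (Fintype.card k ^ e) F) (w : G I ι) :
    w ∈ Submodule.span ℂ {w : G I ι | ∃ z : ℂ, (∃ m i : ℕ, m ≠ 0 ∧
      z ^ m = ((Fintype.card k ^ e : ℕ) : ℂ) ^ (i * m)) ∧ Γ.pushM (fun t => F ∘ t) w = z • w} := by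
  refine Submodule.span_mono ?_ (h.eig k he w)
  rintro w ⟨z, ⟨m, i, a, b⟩, c⟩
  exact ⟨z, ⟨m, i, a, by rw [b, ← pow_mul, mul_comm]⟩, c⟩

end Pool.Agent.Abt
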