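import Pool.Agent.P.MP_2ce3e7_ag.Abt.Top
import Pool.Agent.P.MP_2ce3e7_ag.Tpx.Exit

/-! The three conclusions. -/

set_option autoImplicit false

noncomputable section

namespace Pool.Agent.Abt

open MvPolynomial Pool.Agent.Tav Pool.Agent.Bav

theorem main (k : Type) [Field k] [Fintype k] {Y σ : Type} [Fintype σ]
    (J : Ideal (MvPolynomial σ k)) (r : Y → σ → AlgebraicClosure k) (ne : ∀ y, r y ≠ 0)
    (inj : ∀ y y', Par (r y) (r y') → y = y')
    (cl : ∀ z ∈ zeroLocus (AlgebraicClosure k) (idl r), z ≠ 0 → ∃ y, Par z (r y))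
    (hJ : idl r = J.map (map (algebraMap k (AlgebraicClosure k)))) (h : AbT r) : Tpx.Out k J := by
  let Δ : Geo (idl r) Y := ⟨r, ne, inj, rfl, cl⟩
  obtain ⟨N, hN, H⟩ := dbo_of_abT k Δ rfl h
  refine Tpx.exits_pow k (fun d f hf => ?_) _ hN
    ((congrArg (fun I => Pav.DBo _ (CXD.hom I) (CXD.crd I) _) hJ).mp H)
  rw [← comap_map_bc (algebraMap k (AlgebraicClosure k)) J, Ideal.mem_comap, ← hJ]
  refine (congrArg (· ∈ idl r) ?_).mpr (Δ.hom d _ (hJ ▸ Ideal.mem_map_of_mem _ hf))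
  ext s
  simp only [coeff_map, coeff_homogeneousComponent]
  split_ifs <;> simp

end Pool.Agent.Abt
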