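import Pool.Agent.P.MP_2ce3e7_ag.Abt.SCov
import Pool.Agent.P.MP_2ce3e7_ag.Abt.Main
import Pool.Agent.P.MP_2ce3e7_ag.Tav.CvAll
import Pool.Agent.P.MP_2ce3e7_ag.Tav.SdFer
import Pool.Agent.P.MP_2ce3e7_ag.Tav.SdSm

/-! Diagonal hypersurfaces are of abelian type. -/

set_option autoImplicit false

noncomputable section

namespace Pool.Agent.Abt

open MvPolynomial Pool.Agent.Tav Pool.Agent.Tav.Fer

variable (k : Type) [Field k] [Fintype k] {σ : Type} [Fintype σ]

/-- the points of a diagonal hypersurface over the algebraic closure are of abelian type -/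
theorem abT_diag (h3 : 3 ≤ Fintype.card σ) {a : σ → AlgebraicClosure k} (ha : ∀ i, a i ≠ 0)
    {m : ℕ} (hm : (m : AlgebraicClosure k) ≠ 0) : AbT (co (dg a m)) := by
  have hm0 : m ≠ 0 := by rintro rfl; simp at hm
  have e := idl_co (hom_dg a m) (prime_dg h3 ha hm) (zero_dg (by omega) ha hm0)
  refine abT_of_scov k Cv.p_CJ (co_ne _) (co_inj _) (fun z hz h0 => co_onto (hom_dg a m) h0
    (hz _ (e ▸ Ideal.subset_span rfl))) ?_
  rw [e, ← van_prime (prime_dg h3 ha hm)]
  simpa only [eval_dg] using Fs.scov_diag hm ha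

/-- the three conclusions for a diagonal hypersurface over a finite field -/
theorem out_diag (h3 : 3 ≤ Fintype.card σ) {a : σ → k} (ha : ∀ i, a i ≠ 0) {m : ℕ}
    (hm : (m : k) ≠ 0) : Tpx.Out k (Ideal.span {dg a m}) := by
  have ha' : ∀ i, algebraMap k (AlgebraicClosure k) (a i) ≠ 0 := fun i => by simpa using ha i
  have hm' : (m : AlgebraicClosure k) ≠ 0 := by
    rw [← map_natCast (algebraMap k (AlgebraicClosure k))]
    exact (map_ne_zero _).2 hm
  have hm0 : m ≠ 0 := by rintro rfl; simp at hm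
  have e := idl_co (hom_dg _ m) (prime_dg h3 ha' hm') (zero_dg (by omega) ha' hm0)
  exact main k _ _ (co_ne _) (co_inj _) (fun z hz h0 => co_onto (hom_dg _ m) h0
    (hz _ (e ▸ Ideal.subset_span rfl))) (map_span_dg h3 ha hm).symm (abT_diag k h3 ha' hm')

/-- the strong Tate conjecture for diagonal hypersurfaces over every finite field -/
theorem tate_diag (h3 : 3 ≤ Fintype.card σ) {a : σ → k} (ha : ∀ i, a i ≠ 0) {m : ℕ}
    (hm : (m : k) ≠ 0) (j : ℕ) :
    CXD.Tate k (CXD.hom (Ideal.span {∑ i, C (a i) * X i ^ m}))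
      (CXD.crd (Ideal.span {∑ i, C (a i) * X i ^ m})) j :=
  (out_diag k h3 ha hm).1 (smooth_dg ha hm) j

end Pool.Agent.Abt
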