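import Pool.Agent.P.MP_2ce3e7_ag.Abt.Strat
import Pool.Agent.P.MP_2ce3e7_ag.Abt.Conv
import Pool.Agent.P.MP_2ce3e7_ag.Abt.Core
import Pool.Agent.P.MP_2ce3e7_ag.Abt.Mk
import Pool.Agent.P.MP_dd457d_ag.Bcv.Top
import Pool.Agent.P.MP_2ce3e7_ag.Tav.CvTop

/-! Varieties stratified over a product of curves are of abelian type. -/

set_option autoImplicit false

noncomputable section

namespace Pool.Agent.Abt

open MvPolynomial Function Pool.Agent.Bav Pool.Agent.Bav.Geo Pool.Agent.Bcv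

section
variable {Ω ι : Type} [Field Ω] [IsAlgClosed Ω] [Fintype ι] {C υ : ι → Type}
  [∀ i, Fintype (υ i)] {c : ∀ i, C i → υ i → Ω} (hc : ∀ i, Var (c i))
  (J : ∀ i, CJ (c i) (hc i).ne)

theorem parts_graph {σ σ' τ X : Type} [Fintype σ] [Fintype σ'] [Fintype τ]
    {I : Ideal (MvPolynomial σ Ω)} {Γ : Geo I X} {v : ∀ i, υ i → σ}
    {j : ∀ i, C i → X} (E : ∀ i, OPart Γ (hc i).geo (v i) (j i)) {g q : ℕ}
    {H : (∀ i, (J i).J) → σ' → Ω} (av : Tav.AV H g)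
    (m1 : ∀ i, Tav.Mor H (J i).h fun y => y i)
    (m2 : Tav.Rg (fun i => Tav.crd fun y : ∀ i, (J i).J => (J i).h (y i)) (Tav.crd H))
    {Δ : Geo (Tav.idl H) (∀ i, (J i).J)} (hΔ : Δ.p = H) {v' : σ' → σ}
    (A : AG Γ (∀ i, (J i).J) τ q) (E' : OPart Γ Δ v' A.j) {α : Type} [Fintype α]
    (ψ : (α → X) → ι → X) (hψ : Γ.RegM ψ) (hj : ∀ t i, ψ t i ∈ Set.range (j i)) (z : G I α) :
    ∃ T, Γ.pushM (fun t => Sum.elim t (ψ t)) z ∈ Cm A α T := by
  choose r hr rr using fun i => (E i).exists_ret (hc i).two.to_nonempty.some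
  choose D hD rel using fun i => exists_cx (hc i) (J i) (E i) (hr i) (rr i Unit ())
  let a : (ι → X) → ∀ i, (J i).J := fun t i => (J i).a (r i (t i))
  have ra : Γ.RegM fun t (_ : Unit) => A.j (a t) := fun _ => E'.regF_pad (by
    rw [hΔ]
    exact regF_rg av.ne m2 fun i => ⟨fun _ => (J i).av.ne _, rg_mor (J i).mor (rr i ι i).rg⟩)
  have ru : ∀ i {U : Tav.LS _ (C i)}, Tav.Reg (oB (c i) (hc i).ne) U →
      R1 Γ fun x => vecL U (r i x) := fun i _ h => regF_ls h fun _ => by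
    rw [Tav.LS.pb_co]
    exact (rr i Unit ()).reg
  have rr' : Γ.RegF fun x : Unit ⊕ Unit → X => H (A.r (x (.inl ()))) := ⟨fun _ => av.ne _, by
    have := (AG.rg_r (D := A) (Sum.inl () : Unit ⊕ Unit) ()).rg
    rwa [E'.crd_pad, hΔ] at this⟩
  have rv : ∀ i {V : Tav.LS _ ((J i).J × C i)},
      Tav.Reg (Tav.prodB (oB (J i).h (J i).av.ne) (oB (c i) (hc i).ne)) V →
      R2 Γ fun x y => vecL V (A.r x i, r i y) := fun i _ h => regF_ls h (by
    rintro (_ | _)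
    · simp only [Tav.prodB, Sum.elim_inl, Tav.LS.pb_co]
      exact (regF_mor (m1 i) (J i).av.ne rr').reg
    · simp only [Tav.prodB, Sum.elim_inr, Tav.LS.pb_co]
      exact (rr i _ (Sum.inr () : Unit ⊕ Unit)).reg)
  exact ⟨_, graph_cm (D := A) (a := fun t => a (ψ t)) (fun c _ h1 h2 z => diag_all c h1 h2 z)
    (ra.comp hψ) D hψ (fun t i => hD i ▸ hj t i) (fun i =>
      ⟨(J i).N, _, _, _, _, fun x => vecL (J i).U (r i x), fun x => vecL (J i).U1 (r i x),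
        fun y x => vecL (J i).V (y i, r i x), fun y x => vecL (J i).V1 (y i, r i x), (J i).N0,
        (ru i (J i).rU).comp (φ := fun t _ => ψ t i) fun _ => hψ i,
        (ru i (J i).rU1).comp (φ := fun t _ => ψ t i) fun _ => hψ i,
        rv i (J i).rV, rv i (J i).rV1,
        rel i (α ⊕ ι) (fun t => ψ (t ∘ Sum.inl) i) (fun t => t (.inr i))
          ((hψ.comp (Γ.regM_rm Sum.inl)) i) (Γ.regF_proj _)⟩) z⟩

end

variable (k : Type) [Field k] [Fintype k] {Y τ : Type} [Fintype τ]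
  {r : Y → τ → AlgebraicClosure k}

theorem abT_of_str {ι : Type} [Fintype ι] {C υ : ι → Type} [∀ i, Fintype (υ i)]
    {c : ∀ i, C i → υ i → AlgebraicClosure k} (hc : ∀ i, Var (c i))
    (J : ∀ i, CJ (c i) (hc i).ne) (Δ : Geo (Tav.idl r) Y) (hΔ : Δ.p = r)
    {W : Set (τ → AlgebraicClosure k)} (h : Tav.Str (fun i (t : ∀ i, C i) => c i (t i)) W)
    (hW : vanishingIdeal (AlgebraicClosure k) W = Tav.idl r) : AbT r := by
  obtain ⟨σ', _, g, H, av, inj, m1, m2⟩ := exists_pi (fun i => (J i).av) fun i => (J i).inj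
  let Θ : Geo (Tav.idl H) (∀ i, (J i).J) := ⟨H, av.ne, inj, rfl, av.cl⟩
  obtain ⟨σ, X, _, I, Γ, ⟨u, y, hY⟩, ⟨w, j, hA⟩, E⟩ := exists_union Δ Θ fun i => (hc i).geo
  choose v jc E using E
  obtain ⟨e, -, D, rfl, rfl⟩ := exists_AB k av Θ rfl hA
  have := fun i => (hc i).two.to_nonempty
  exact abT_of_mem D hΔ hY av rfl hA (diag_cm D (D.nil D.rg_dif) hY
    (str_cm D.toAG hY E (parts_graph hc J E av m1 m2 rfl D.toAG hA) h hW))

/-- every variety that is stratified over a product of curves is of abelian type -/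
theorem abT_of_scov (hJ : Tav.Cv.S_CJ) (ne : ∀ y, r y ≠ 0)
    (inj : ∀ y y', Tav.Par (r y) (r y') → y = y')
    (cl : ∀ z ∈ zeroLocus (AlgebraicClosure k) (Tav.idl r), z ≠ 0 → ∃ y, Tav.Par z (r y))
    (h : Tav.SCov (Tav.idl r)) : AbT r := by
  obtain ⟨n, T, σ, _, c, W, hc, hW, e⟩ := h
  exact abT_of_str k (fun i => Tav.Cv.var_of (hc i)) (fun i => (hJ k _ (hc i)).some)
    ⟨r, ne, inj, rfl, cl⟩ rfl hW e

theorem abT_of_cov' (hJ : Tav.Cv.S_CJ) (ne : ∀ y, r y ≠ 0)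
    (inj : ∀ y y', Tav.Par (r y) (r y') → y = y')
    (cl : ∀ z ∈ zeroLocus (AlgebraicClosure k) (Tav.idl r), z ≠ 0 → ∃ y, Tav.Par z (r y))
    (h : Tav.Cov (Tav.idl r)) : AbT r := abT_of_scov k hJ ne inj cl h.sCov

end Pool.Agent.Abt
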