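import Pool.Agent.P.MP_2ce3e7_ag.Abt.Main
import Pool.Agent.P.MP_2ce3e7_ag.Abt.Av
import Pool.Agent.P.MP_2ce3e7_ag.Abt.SCov
import Pool.Agent.P.MP_2ce3e7_ag.Tav.CvCJ
import Pool.Agent.P.MP_2ce3e7_ag.Tav.CvNorm
import Pool.Agent.P.MP_2ce3e7_ag.Tav.SdFer

/-! Members of the class. -/

set_option autoImplicit false

namespace Pool.Agent.Abt

open MvPolynomial Pool.Agent.Tav

variable (k : Type) [Field k] [Fintype k] {Y σ : Type} [Fintype σ]
  {r : Y → σ → AlgebraicClosure k} (hr : ∀ y, r y ≠ 0) (hi : ∀ y y', Par (r y) (r y') → y = y')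
  (hc : ∀ z ∈ zeroLocus (AlgebraicClosure k) (idl r), z ≠ 0 → ∃ y, Par z (r y))

include hr hi hc

theorem mem_scov (h : SCov (idl r)) : AbT r :=
  abT_of_scov k (fun _ _ _ _ _ _ _ h => Cv.exists_cj h) hr hi hc h

theorem mem_cov (h : Cov0 (idl r)) : AbT r := mem_scov k hr hi hc h.cov.sCov

theorem mem_diag {m : ℕ} (hm : (m : AlgebraicClosure k) ≠ 0) {a : σ → AlgebraicClosure k}
    (ha : ∀ l, a l ≠ 0)
    (e : idl r = vanishingIdeal (AlgebraicClosure k) {y | ∑ l, a l * y l ^ m = 0}) : AbT r :=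
  mem_scov k hr hi hc (e ▸ Fs.scov_diag hm ha)

end Pool.Agent.Abt
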