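import Pool.Agent.P.MP_2ce3e7_ag.Abt.Defs
import Pool.Agent.P.MP_dd457d_ag.Bcv.AGd

/-! The abelian variety inside a union, with its own polarisation and Frobenius. -/

set_option autoImplicit false

noncomputable section

namespace Pool.Agent.Abt

open Function Pool.Agent.Bav Pool.Agent.Bcv MvPolynomial

section
variable {k σ τ X Y A : Type} [Field k] {I : Ideal (MvPolynomial σ k)} {Γ : Geo I X}
  {J : Ideal (MvPolynomial τ k)} {Δ : Geo J Y} {v : τ → σ} {j : Y → X} {Q : ℕ}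

theorem fr_on (E : OPart Γ Δ v j) (hQ : Q ≠ 0) {F : Y → Y} (hF : Δ.IsFr Q F) {fr : X → X}
    (hfr : Γ.IsFr Q fr) (a : Y) : j (F a) = fr (j a) := by
  obtain ⟨c, hc, e⟩ := hF a
  refine (hfr.eq ⟨c, hc, funext fun l => ?_⟩).symm
  rw [Pi.smul_apply, Pi.pow_apply]
  by_cases h : ∃ t, v t = l
  · obtain ⟨t, rfl⟩ := h
    rw [E.p_on, E.p_on, e, Pi.smul_apply, Pi.pow_apply]
  · rw [E.pon, E.pon, extend_apply' _ _ _ h, extend_apply' _ _ _ h, Pi.zero_apply, zero_pow hQ,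
      smul_zero]

theorem fr_off (E : OPart Γ Δ v j) (hQ : Q ≠ 0) {fr : X → X} (hfr : Γ.IsFr Q fr) {x : X}
    (hx : x ∉ Set.range j) : fr x ∉ Set.range j := by
  rintro ⟨y, e⟩
  obtain ⟨t, ht⟩ := Function.ne_iff.1 (Δ.ne y)
  obtain ⟨c, -, h⟩ := hfr x
  refine ht ?_
  rw [← E.p_on, e, h, Pi.smul_apply, Pi.pow_apply, E.poff x hx, zero_pow hQ, smul_zero,
    Pi.zero_apply]

end

section
variable {k σ τ X A : Type} [Field k] [IsAlgClosed k] [Fintype σ] [Fintype τ]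
  {I : Ideal (MvPolynomial σ k)} {Γ : Geo I X} [AddCommGroup A]

theorem mk_AB {p : A → τ → k} {g : ℕ} (av : Tav.AV p g) {Δ : Geo (Tav.idl p) A} (hΔ : Δ.p = p)
    {Q : ℕ} (hQ : Q ≠ 0) {φ : A →+ A} (hφ : Δ.IsFr Q φ) {fr : X → X} (hfr : Γ.IsFr Q fr)
    (H : (fun n => cy (Tav.idl p) (IX (Tav.idl p) (Unit ⊕ Unit) ⊔ Pav.gS τ _ (Q ^ n)) 0) ∈
      SP (Bx (Tav.idl p)) Q ∧
      ∃ (σ : Type) (_ : Fintype σ) (h : A → σ → k) (c : ℂ), c ≠ 0 ∧
        (∀ y, h y ≠ 0) ∧ Tav.Mor p h id ∧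
        (lg (Δ.twF fun t : Unit → A => h (t ())) ^ g) (Δ.cT Set.univ 0) = c • Δ.cT {0} 0)
    {c : ℂ} (hc : c ≠ 0)
    (pt : (lg (shG 1 : Module.End ℂ (G (Tav.idl p) Unit)) ^ g) (Δ.cT Set.univ 0) = c • Δ.cT {0} 0)
    (top : ((shG 1 - 1 : Module.End ℂ (G (Tav.idl p) Unit)) ^ (g + 1)) (Δ.cT Set.univ 0) = 0)
    {v : τ → σ} {j : A → X} (E : OPart Γ Δ v j) : ∃ D : AB Γ A Q, D.j = j ∧ D.g = g := by
  classical
  obtain ⟨τ', _, D, hj, hF, -⟩ := exists_ag av hΔ (F := φ) (fun y => by rw [← hΔ]; exact hφ y) H E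
  have rj : ∀ y, extend j id (fun _ => (0 : A)) (j y) = y := fun y => E.j_inj.extend_apply _ _ y
  have ro : ∀ x, x ∉ Set.range j → extend j id (fun _ => (0 : A)) x = 0 := fun _ hx =>
    extend_apply' _ _ _ hx
  generalize extend j id (fun _ => (0 : A)) = r at rj ro
  have hr : ∀ (ι : Type) [Fintype ι] (i : ι), Γ.RegF fun x : ι → X => Δ.p (r (x i)) :=
    fun _ _ i => E.regF_ret rj ro i
  have hp : ∀ (ι : Type) [Fintype ι] (i : ι), Γ.RegF fun x : ι → X => p (r (x i)) :=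
    fun ι _ i => hΔ ▸ hr ι i
  have h1 : Γ.RegF fun t : Unit → X => Γ.p (j (r (t ()))) := E.regF_pad (hr _ _)
  have h2 : Δ.twF (fun y : Unit → A => Γ.p (j (r ((j ∘ y) ())))) = shG 1 := by
    rw [Δ.twF_crd (Δ.regF_proj ()) (fun _ => Γ.ne _) (fun _ => one_ne_zero) fun b => ?_,
      Δ.twF_proj]
    · exact congrArg shG (funext fun _ => Pi.single_eq_same _ _)
    · rw [← E.crd_pad fun y : Unit → A => y ()]
      simpa only [comp_apply, rj, Pi.one_def.symm, one_mul] using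
        mem_crdL (fun y : Unit → A => Γ.p (j (y ()))) b
  have h3 : ∀ (m : ℕ) x, (lg (Γ.twF fun t : Unit → X => Γ.p (j (r (t ())))) ^ m) (E.ext Unit x) =
      E.ext Unit ((lg (shG 1 : Module.End ℂ (G (Tav.idl p) Unit)) ^ m) x) := fun m x => by
    induction m with
    | zero => rfl
    | succ m ih =>
      rw [pow_succ', pow_succ', Module.End.mul_apply, Module.End.mul_apply, ih]
      refine lg_inter (unip_shG 1) h1.unip (fun z => ?_) _
      rw [← E.ext_twF h1 z, h2]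
  have h4 : ∀ (m : ℕ) x, ((shG 1 - 1 : Module.End ℂ (G I Unit)) ^ m) (E.ext Unit x) =
      E.ext Unit (((shG 1 - 1 : Module.End ℂ (G (Tav.idl p) Unit)) ^ m) x) := fun m x => by
    induction m with
    | zero => rfl
    | succ m ih =>
      rw [pow_succ', pow_succ', Module.End.mul_apply, Module.End.mul_apply, ih,
        LinearMap.sub_apply, LinearMap.sub_apply, map_sub, E.ext_shG]
      rfl
  have h5 : Γ.cT (Set.range fun (y : A) (_ : Unit) => j y) 0 = E.ext Unit (Δ.cT Set.univ 0) := by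
    rw [E.ext_cT]
    refine congrArg (Γ.cT · 0) (Set.ext fun t => ?_)
    exact ⟨fun ⟨y, e⟩ => ⟨fun _ => y, trivial, e⟩, fun ⟨y, _, e⟩ => ⟨y (), e⟩⟩
  have h6 := fr_on E hQ hφ hfr
  refine ⟨{ j := j, r := r, rj := rj, h := fun a => Γ.p (j a), hr := h1, g := g, c := c, hc := hc
            F := fun n => φ^[n]
            sub := E.regF_pad (hΔ.symm ▸ regF_sub av (hp _ _) (hp _ _))
            Fr := fun n => E.regF_pad (OPart.regF_ext ((hφ.iter n).regF ())
              (φ := fun x _ => r (x ())) fun _ => hr _ _)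
            pt := ?_, sp := ?_, hh := fun _ => rfl, top := ?_, fr := fr, isFr := hfr, φ := φ
            rφ := fun x => ?_, jφ := h6, Fφ := fun _ _ => rfl }, rfl, rfl⟩
  · rw [h5, h3, pt, map_smul, E.ext_cT, Set.image_singleton]
    rfl
  · simpa only [hj, hF] using D.sp
  · rw [h5, h4, top, map_zero]
  · by_cases hx : x ∈ Set.range j
    · obtain ⟨y, rfl⟩ := hx
      rw [← h6, rj, rj]
    · rw [ro _ hx, ro _ (fr_off E hQ hfr hx), map_zero]

end

/-- additive Frobenius maps exist along all multiples of one exponent -/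
theorem dv_add (k : Type) [Field k] [Fintype k] {τ A : Type} [Fintype τ] [AddCommGroup A]
    {p : A → τ → AlgebraicClosure k} {g : ℕ} (av : Tav.AV p g) (Δ : Geo (Tav.idl p) A)
    (hΔ : Δ.p = p) : Dv fun n => ∃ φ : A →+ A, Δ.IsFr (Fintype.card k ^ n) φ := by
  have h0 : ∀ i, Δ.RegF fun t : U2 → A => p (t i) := fun i => by
    simpa only [hΔ] using Δ.regF_proj i
  have h1 : Δ.RegM fun (t : U2 → A) (_ : Unit) => t (.inl ()) - t (.inr ()) := fun _ => by
    simpa only [hΔ] using regF_sub av (h0 _) (h0 _)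
  refine (Δ.dv_isFr.and h1.frob).mono fun n ⟨⟨F, hF⟩, h⟩ =>
    ⟨AddMonoidHom.ofMapSub F fun a b => ?_, hF⟩
  exact (congrFun (h F hF (Sum.elim (fun _ => a) fun _ => b)) ()).symm

end Pool.Agent.Abt
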