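import Pool.Agent.P.MP_dd457d_ag.Bav.KCalc
import Pool.Agent.P.MP_dd457d_ag.Bav.KNum
import Pool.Agent.P.MP_dd457d_ag.Bav.Plus
import Pool.Agent.P.MP_2ce3e7_ag.Tav.CuMain
import Pool.Agent.P.MP_2ce3e7_ag.Tav.TiCnt

/-! All points of an abelian variety whose points are torsion have the same class. -/

set_option autoImplicit false

noncomputable section

namespace Pool.Agent.Abt

open MvPolynomial Function Pool.Agent.Tav Pool.Agent.Bav

/-- torsion from a power of Frobenius -/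
theorem tors_pow (k : Type) [Field k] [Fintype k] {Ω A τ : Type} [Field Ω] [Algebra k Ω]
    [Algebra.IsAlgebraic k Ω] [Fintype τ] [AddCommGroup A] {p : A → τ → Ω} (ne : ∀ y, p y ≠ 0)
    (inj : ∀ y y', Par (p y) (p y') → y = y') {e : ℕ} (he : e ≠ 0) {F : A →+ A}
    (hF : ∀ y, Par (p (F y)) (p y ^ Fintype.card k ^ e)) (y : A) :
    ∃ n : ℕ, n ≠ 0 ∧ n • y = 0 := by
  classical
  let fr : Ω →+* Ω := (FiniteField.frobeniusAlgHom k Ω).toRingHom
  have hfr : ∀ x, fr x = x ^ Nat.card k := fun x => by rw [Nat.card_eq_fintype_card]; rfl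
  obtain ⟨n, hn, h⟩ := De.per_fin fr hfr (Finset.univ.image (p y))
  have h0 : p y ^ Fintype.card k ^ n = p y := funext fun l => by
    rw [Pi.pow_apply, ← Nat.card_eq_fintype_card, ← De.iter_pow fr _ hfr]
    exact h _ (Finset.mem_image_of_mem _ (Finset.mem_univ l))
  have h1 : ∀ m : ℕ, p y ^ Fintype.card k ^ (n * m) = p y := fun m => by
    induction m with
    | zero => simp
    | succ m ih => rw [Nat.mul_succ, pow_add, pow_mul (p y), ih, h0]
  have h2 : F^[n] y = y := inj _ _ (by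
    have := par_itr hF n y
    rwa [← pow_mul, mul_comm, h1] at this)
  have fin := finite_fix ne inj (Nat.one_lt_pow hn.ne' (Nat.one_lt_pow he Fintype.one_lt_card))
    (par_itr hF n)
  have : IsOfFinAddOrder y := by
    rw [← finite_multiples]
    refine fin.subset ?_
    rintro _ ⟨m, rfl⟩
    change F^[n] (m • y) = m • y
    rw [iterate_map_nsmul, h2]
  obtain ⟨m, hm, e⟩ := isOfFinAddOrder_iff_nsmul_eq_zero.1 this
  exact ⟨m, hm.ne', e⟩

variable {Ω σ τ A : Type} [Field Ω] [IsAlgClosed Ω] [Fintype σ] [Fintype τ] [AddCommGroup A]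
  {I : Ideal (MvPolynomial σ Ω)} {g : ℕ} (Γ : Geo I A) (av : AV Γ.p g)

include av

theorem chi_ne {q : A → τ → Ω} (hq : AV q g) (m1 : Mor Γ.p q id) (m2 : Mor q Γ.p id) :
    chi ((lg (Γ.twF fun t : Unit → A => q (t ())) ^ g) (Γ.cT Set.univ 0)) ≠ 0 := by
  have e : Set.range (fun (y : A) (_ : Unit) => y) = Set.univ :=
    Set.eq_univ_of_forall fun t => ⟨t (), rfl⟩
  have r : Γ.RegF fun t : Unit → A => q (t ()) :=
    ⟨fun _ => hq.ne _, rg_mor m1 (Γ.regF_proj ()).rg⟩
  have h1 := Γ.bridge_cT r (fun (y : A) (_ : Unit) => y) ![crd Γ.p, crd q] eqv1 (fun _ => rfl)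
    rfl g
  have r1 : Reg (fun _ : Unit => LS.co Γ.p av.ne) (LS.co q hq.ne) :=
    LS.pb_id (LS.co q hq.ne) ▸ m1.reg av.ne hq.ne
  have r2 : Reg (fun _ : Unit => LS.co q hq.ne) (LS.co Γ.p av.ne) :=
    LS.pb_id (LS.co Γ.p av.ne) ▸ m2.reg hq.ne av.ne
  have h2 := mix_rep (ν := Fin g) av.src r1 (by simp) ![LS.co Γ.p av.ne, LS.co q hq.ne]
    (Sum.elim (fun _ => 0) fun _ => 1)
    (fun i => by fin_cases i; exacts [⟨Sum.inl (), rfl⟩, ⟨Sum.inr (), rfl⟩])
    (funext fun i => by cases i <;> rfl)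
  have h3 := mix_base (W := fun _ : Fin g => LS.co q hq.ne) av.src (fun _ : Unit => r1)
    (fun _ => r2) (fun _ => r1) (by simp)
  have e2 : (![crd Γ.p, crd q] : Fin 2 → _) = fun i =>
      ((![LS.co Γ.p av.ne, LS.co q hq.ne] : Fin 2 → _) i).sp := by
    funext i
    fin_cases i <;> rfl
  have h4 := hq.top
  rw [← h3, h2, Fintype.card_fin] at h4
  rw [e] at h1
  rw [h1, e2, hp_eq_pf]
  exact_mod_cast h4

omit [IsAlgClosed Ω] in
theorem reg_aff (n : ℕ) (a : A) : Γ.RegF fun t : Unit → A => Γ.p (n • t () + a) :=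
  ⟨fun _ => av.ne _, rg_add av (rg_mor (Cnt.mor_nsmul av n) (Γ.regF_proj ()).rg)
    (rg_const _ (Γ.p a))⟩

omit [IsAlgClosed Ω] in
theorem reg_tr (a : A) : Γ.RegF fun t : Unit → A => Γ.p (t () + a) := by
  simpa only [one_nsmul] using reg_aff Γ av 1 a

theorem push_tr_one (a : A) :
    Γ.pushM (fun (t : Unit → A) (_ : Unit) => t () + a) (Γ.cT Set.univ 0) = Γ.cT Set.univ 0 := by
  have r : ∀ b : A, Γ.RegM fun t : Unit ⊕ Unit → A =>
      Sum.elim (t ∘ Sum.inl) fun _ : Unit => t (.inr ()) + b := fun b =>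
    (Γ.regM_rm Sum.inl).elim fun _ => (reg_tr Γ av b).comp (Γ.regM_rm Sum.inr)
  have h1 := Γ.pushM_shear (r a) (r (-a))
    (fun t => funext fun j => by rcases j with j | j <;> simp)
    (fun t => funext fun j => by rcases j with j | j <;> simp) (fun _ _ => rfl) (Γ.cT {0} 0)
  have h2 := Γ.pushM_snd (Γ.cT {(0 : Unit → A)} 0) (Γ.cT (Set.univ : Set (Unit → A)) 0)
  rw [Γ.chi_point, one_smul] at h2
  have h3 := congrArg (Γ.pushM fun t : Unit ⊕ Unit → A => t ∘ Sum.inr) h1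
  rw [h2, Γ.pushM_comp (r a) (Γ.regM_rm _)] at h3
  rw [← h2, Γ.pushM_comp (Γ.regM_rm _) fun _ => reg_tr Γ av a, h2]
  exact h3

variable (tors : ∀ y : A, ∃ n : ℕ, n ≠ 0 ∧ n • y = 0)

include tors

/-- the logarithm of a symmetric twist is invariant under translation -/
theorem lg_tr {q : A → τ → Ω} (hq : ∀ y, q y ≠ 0) (m1 : Mor Γ.p q id) (law : Bav.Law q) (a : A) :
    lg (Γ.twF fun t : Unit → A => q (t () + a)) = lg (Γ.twF fun t : Unit → A => q (t ())) := by
  have r : ∀ b : A, Γ.RegF fun t : Unit → A => q (t () + b) := fun b =>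
    ⟨fun _ => hq _, rg_mor m1 (reg_tr Γ av b).rg⟩
  let L : ℕ → Module.End ℂ (G I Unit) := fun n => lg (Γ.twF fun t : Unit → A => q (t () + n • a))
  have h1 : ∀ n, L (n + 2) + L n = (2 : ℂ) • L (n + 1) := fun n => by
    obtain ⟨c, hc, hw⟩ := law
    have := Γ.twF_par (r ((n + 1) • a)) (Γ.regF_const (hq a)) (r ((n + 2) • a)) (r (n • a))
      (c := fun t => c (t () + (n + 1) • a, a)) (fun _ => hc _) fun i j => by
        have := Submodule.mem_map_of_mem
          (f := (Tr.pb Ω fun t : Unit → A => (t () + (n + 1) • a, a)).toLinearMap) (hw i j)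
        rw [Submodule.map_mul, Submodule.map_pow, Submodule.map_pow, Tr.map_crd,
          Tr.map_crd] at this
        refine (congrArg (· ∈ _) (_root_.funext fun t => ?_)).mpr this
        have e1 : t () + (n + 1) • a - a = t () + n • a := by
          rw [succ_nsmul, ← add_assoc, add_sub_cancel_right]
        have e2 : t () + (n + 1) • a + a = t () + (n + 2) • a := by
          rw [add_assoc, ← succ_nsmul]
        change _ = c _ * (q (t () + (n + 1) • a + a) i * q (t () + (n + 1) • a - a) j)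
        rw [e1, e2]
        rfl
    rwa [Γ.twF_const (hq a), lg_one, smul_zero, add_zero] at this
  have h2 : ∀ n : ℕ, L n = L 0 + (n : ℂ) • (L 1 - L 0) := fun n => by
    induction n using Nat.twoStepInduction with
    | zero => simp
    | one => simp
    | more n h0 h3 =>
      rw [eq_sub_of_add_eq (h1 n), h0, h3]
      push_cast
      module
  obtain ⟨n, hn, e⟩ := tors a
  have h3 : L n = L 0 := by simp only [L, e, zero_nsmul]
  have h4 := h2 n
  rw [h3, left_eq_add, smul_eq_zero, sub_eq_zero] at h4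
  simpa only [L, one_nsmul, zero_nsmul, add_zero] using
    h4.resolve_left (Nat.cast_ne_zero.2 hn)

/-- all points have the same class -/
theorem pt_eq (b : A) : Γ.cT {fun _ : Unit => b} 0 = Γ.cT {0} 0 := by
  obtain ⟨τ, _, q, hq, hi, m1, m2, law, -⟩ := Cu.cube av
  have r : Γ.RegF fun t : Unit → A => q (t ()) :=
    ⟨fun _ => hq.ne _, rg_mor m1 (Γ.regF_proj ()).rg⟩
  have h0 := chi_ne Γ av hq m1 m2
  have h1 : (lg (Γ.twF fun t : Unit → A => q (t ())) ^ g) (Γ.cT Set.univ 0) ∈ Fil I Unit 1 :=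
    r.low_lg.pow g 1 _ (by rw [mul_one, add_comm, Γ.fil_top av]; trivial)
  have h2 : ∀ a : A, Γ.pushM (fun (t : Unit → A) (_ : Unit) => t () + a)
      ((lg (Γ.twF fun t : Unit → A => q (t ())) ^ g) (Γ.cT Set.univ 0)) =
      (lg (Γ.twF fun t : Unit → A => q (t ())) ^ g) (Γ.cT Set.univ 0) := fun a => by
    have ra : Γ.RegM fun (t : Unit → A) (_ : Unit) => t () + a := fun _ => reg_tr Γ av a
    have e : ∀ x, lg (Γ.twF fun t : Unit → A => q (t ())) (Γ.pushM (fun t _ => t () + a) x) =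
        Γ.pushM (fun t _ => t () + a) (lg (Γ.twF fun t : Unit → A => q (t ())) x) := fun x => by
      rw [lg_inter (r.comp ra).unip r.unip (Γ.twF_pushM r ra) x]
      exact congrArg _ (LinearMap.congr_fun (lg_tr Γ av tors hq.ne m1 law a) x)
    generalize g = m
    induction m with
    | zero => exact push_tr_one Γ av a
    | succ m ih => rw [pow_succ', Module.End.mul_apply, ← e, ih]
  generalize (lg (Γ.twF fun t : Unit → A => q (t ())) ^ g) (Γ.cT Set.univ 0) = x at h0 h1 h2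
  have rn : ∀ (n : ℕ) (a : A), Γ.RegM fun (t : Unit → A) (_ : Unit) => n • t () + a :=
    fun n a _ => reg_aff Γ av n a
  obtain ⟨n, hn, h3⟩ := Γ.fil_pts (fun n (t : Unit → A) (_ : Unit) => n • t () + 0)
    (fun n => rn n 0) 0 (fun y => by
      obtain ⟨n, hn, h⟩ := tors (y ())
      exact ⟨n, hn, fun t => funext fun _ => by rw [mul_nsmul, h, nsmul_zero, add_zero]; rfl⟩) h1
  obtain ⟨a, rfl⟩ := (Cnt.cnt_law hq (hi Γ.inj) law hn).1 b
  have ra : ∀ a : A, Γ.RegM fun (t : Unit → A) (_ : Unit) => t () + a := fun a _ => reg_tr Γ av a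
  have h4 := congrArg (Γ.pushM fun (t : Unit → A) (_ : Unit) => t () + n • a) h3
  rw [Γ.pushM_comp (rn n 0) (ra _), map_smul, Γ.pushM_point (ra _)] at h4
  rw [← h2 a, Γ.pushM_comp (ra _) (rn n 0), h2 a] at h3
  simp only [add_zero, nsmul_add, Pi.zero_apply, zero_add] at h3 h4
  exact smul_right_injective _ h0 (h4.symm.trans h3)

/-- classes of dimension zero -/
theorem fil_one {x : G I Unit} (hx : x ∈ Fil I Unit 1) : x = chi x • Γ.cT {0} 0 := by
  refine (Submodule.span_le (p := LinearMap.eqLocus LinearMap.id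
    (chi.smulRight (Γ.cT {(0 : Unit → A)} 0)))).2 ?_ hx
  rintro _ ⟨P, n, hP, hd, rfl⟩
  by_cases hI : Irr P
  · rw [cy_irr hI]
    exact zero_mem _
  · obtain ⟨y, hy⟩ := Γ.ZS_of_dim hP hI hd
    exact (Γ.eq_of_supp_point (Γ.cy_mem_supp hy n)).trans
      (congrArg (chi (cy I P n) • ·) (pt_eq Γ av tors (y ())))

omit tors in
theorem sh_top : (((shG 1 : Module.End ℂ (G I Unit)) - 1) ^ (g + 1)) = 0 :=
  LinearMap.ext fun x => (isSh_shG 1).low.pow_apply (by rw [Γ.fil_top av]; trivial)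

/-- PT -/
theorem pt : ∃ c : ℂ, c ≠ 0 ∧
    (((shG 1 : Module.End ℂ (G I Unit)) - 1) ^ g) (Γ.cT Set.univ 0) = c • Γ.cT {0} 0 := by
  have h0 : (Pi.single () 1 : Unit → ℤ) = 1 := funext fun _ => Pi.single_eq_same _ _
  have h1 := chi_ne Γ av av (mor_id _) (mor_id _)
  rw [Γ.twF_proj (), h0, lg_pow_top (sh_top Γ av)] at h1
  exact ⟨_, h1, fil_one Γ av tors ((isSh_shG 1).low.pow g 1 _
    (by rw [mul_one, add_comm, Γ.fil_top av]; trivial))⟩

/-- PT with the logarithm -/
theorem pt_lg : ∃ c : ℂ, c ≠ 0 ∧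
    (lg (shG 1 : Module.End ℂ (G I Unit)) ^ g) (Γ.cT Set.univ 0) = c • Γ.cT {0} 0 := by
  rw [lg_pow_top (sh_top Γ av)]
  exact pt Γ av tors

end Pool.Agent.Abt
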