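import Pool.Agent.P.MP_2ce3e7_ag.Abt.MkA
import Pool.Agent.P.MP_2ce3e7_ag.Abt.Pt

/-! The abelian variety inside a union over the algebraic closure of a finite field. -/

set_option autoImplicit false

noncomputable section

namespace Pool.Agent.Abt

open Function Pool.Agent.Bav Pool.Agent.Bcv MvPolynomial

variable (k : Type) [Field k] [Fintype k] {σ τ X A : Type} [Fintype σ] [Fintype τ]
  {I : Ideal (MvPolynomial σ (AlgebraicClosure k))} {Γ : Geo I X} [AddCommGroup A]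

theorem dv_AB {p : A → τ → AlgebraicClosure k} {g : ℕ} (av : Tav.AV p g)
    (Δ : Geo (Tav.idl p) A) (hΔ : Δ.p = p) {v : τ → σ} {j : A → X} (h : OPart Γ Δ v j)
    (H : ∀ e ≠ 0, ∀ F : A →+ A, (∀ y, Tav.Par (p (F y)) (p y ^ Fintype.card k ^ e)) →
      (fun n => cy (Tav.idl p) (IX (Tav.idl p) (Unit ⊕ Unit) ⊔
        Pav.gS τ _ ((Fintype.card k ^ e) ^ n)) 0) ∈ SP (Bx (Tav.idl p)) (Fintype.card k ^ e) ∧
      ∃ (σ : Type) (_ : Fintype σ) (h : A → σ → AlgebraicClosure k) (c : ℂ), c ≠ 0 ∧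
        (∀ y, h y ≠ 0) ∧ Tav.Mor p h id ∧
        (lg (Δ.twF fun t : Unit → A => h (t ())) ^ g) (Δ.cT Set.univ 0) = c • Δ.cT {0} 0) :
    Dv fun e => e ≠ 0 → ∃ D : AB Γ A (Fintype.card k ^ e), D.j = j ∧ D.g = g := by
  refine (Γ.dv_isFr.and (dv_add k av Δ hΔ)).mono fun e ⟨⟨fr, hfr⟩, φ, hφ⟩ he => ?_
  have av' : Tav.AV Δ.p g := by rwa [hΔ]
  obtain ⟨c, hc, pt⟩ := pt_lg Δ av' (tors_pow k Δ.ne Δ.inj he hφ)
  exact mk_AB av hΔ (pow_ne_zero _ Fintype.card_ne_zero) hφ hfr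
    (H e he φ fun y => by rw [← hΔ]; exact hφ y) hc pt (by rw [sh_top Δ av']; rfl) h

end Pool.Agent.Abt
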