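import Pool.Agent.P.MP_dd457d_ag.Bcv.SdTr
import Pool.Agent.P.MP_dd457d_ag.Bcv.Union
import Pool.Agent.P.MP_2ce3e7_ag.Tav.SdBas
import Pool.Agent.P.MP_2ce3e7_ag.Abt.CovA

/-! Compositions through an abelian variety along a stratification. -/

set_option autoImplicit false
set_option linter.unusedSectionVars false

noncomputable section

namespace Pool.Agent.Abt

open Function Pool.Agent.Bav Pool.Agent.Bcv Pool.Agent.Bav.Geo

variable {σ k ι κ α τ X : Type} [Field k] [IsAlgClosed k] {I : Ideal (MvPolynomial σ k)}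
  [Fintype σ] [Fintype ι] [Fintype κ] [Fintype α] [Fintype τ] {Γ : Geo I X} {A : Type}
  [AddCommGroup A] {q : ℕ} (D : AG Γ A τ q)

/-- the composition with several outer slots -/
def cm (z : G I (α ⊕ Unit)) : G I (κ ⊕ Unit) →ₗ[ℂ] G I (α ⊕ κ) :=
  fgt (Sum.map Sum.inl Sum.inl) (Sum.inl_injective.sumMap Sum.inl_injective) ∘ₗ
    (lg (Γ.twF fun t : (α ⊕ Unit) ⊕ (κ ⊕ Unit) → X =>
      D.h (D.r (t (.inl (.inr ()))) - D.r (t (.inr (.inr ()))))) ^ D.g) ∘ₗ boxG z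

theorem cm_reg : Γ.RegF fun t : (α ⊕ Unit) ⊕ (κ ⊕ Unit) → X =>
    D.h (D.r (t (.inl (.inr ()))) - D.r (t (.inr (.inr ())))) :=
  ((AG.rg_r _).sub (AG.rg_r _)).h

theorem cm_fgt {u : κ → ι} (hu : Injective u) (z : G I (α ⊕ Unit)) (w : G I (ι ⊕ Unit)) :
    fgt (Sum.map id u) (injective_id.sumMap hu) (cm D z w) =
      cm D z (fgt (Sum.map u id) (hu.sumMap injective_id) w) := by
  have h1 := fgt_box id injective_id (Sum.map u id) (hu.sumMap injective_id) z w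
  rw [fgt_id, ← Γ.pushM_rm] at h1
  simp only [cm, LinearMap.comp_apply]
  rw [← h1, lgp_push Γ (cm_reg D) (Γ.regM_rm _), Γ.pushM_rm _
    (injective_id.sumMap (hu.sumMap injective_id)), fgt_comp, fgt_comp]
  refine LinearMap.congr_fun (fgt_congr _ _ (funext ?_)) _
  rintro (a | a) <;> rfl

theorem cm_supp {T : Set (κ → X)} (z : G I (α ⊕ Unit)) {w : G I (κ ⊕ Unit)}
    (hw : w ∈ Γ.Supp (prodT T Set.univ)) : cm D z w ∈ Γ.Supp (snd α T) :=
  Γ.Supp_mono (by rintro _ ⟨t, ht, rfl⟩; exact ht.2.1) (Γ.fgt_supp _ _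
    (twA_supp (pow_mem (cm_reg D).lg_twA _) (Γ.box_supp (Γ.mem_supp_univ z) hw)))

theorem cm_fgt_left {β : Type} [Fintype β] {u : β → α} (hu : Injective u) (z : G I (α ⊕ Unit))
    (w : G I (κ ⊕ Unit)) : fgt (Sum.map u id) (hu.sumMap injective_id) (cm D z w) =
      cm D (fgt (Sum.map u id) (hu.sumMap injective_id) z) w := by
  have h1 := fgt_box (Sum.map u id) (hu.sumMap injective_id) id injective_id z w
  rw [fgt_id, ← Γ.pushM_rm] at h1
  simp only [cm, LinearMap.comp_apply]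
  rw [← h1, lgp_push Γ (cm_reg D) (Γ.regM_rm _), Γ.pushM_rm _
    ((hu.sumMap injective_id).sumMap injective_id), fgt_comp, fgt_comp]
  refine LinearMap.congr_fun (fgt_congr _ _ (funext ?_)) _
  rintro (a | a) <;> rfl

theorem Cm_eq (T : Set (κ → X)) : Cm D α T =
    Submodule.span ℂ {x | ∃ z, ∃ w ∈ Γ.Supp (prodT T Set.univ), x = cm D z w} := rfl

theorem cm_mem (z : G I (α ⊕ Unit)) (w : G I (κ ⊕ Unit)) :
    cm D z w ∈ Cm D α (Set.univ : Set (κ → X)) :=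
  Submodule.subset_span ⟨z, _, Γ.Supp_mono (fun _ _ => And.intro trivial trivial)
    (Γ.mem_supp_univ _), rfl⟩

theorem CM_supp (T : Set (κ → X)) : Cm D α T ≤ Γ.Supp (snd α T) :=
  (Cm_eq D T).le.trans
    (Submodule.span_le.2 (by rintro _ ⟨z, w, hw, rfl⟩; exact cm_supp D z hw))

theorem CM_fgt {u : κ → ι} (hu : Injective u) {T : Set (ι → X)} {x : G I (α ⊕ ι)}
    (hx : x ∈ Cm D α T) :
    fgt (Sum.map id u) (injective_id.sumMap hu) x ∈ Cm D α (Set.univ : Set (κ → X)) := by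
  rw [Cm_eq] at hx
  refine (Submodule.span_le (p := Submodule.comap _ (Cm D α Set.univ))).2 ?_ hx
  rintro _ ⟨z, w, -, rfl⟩
  rw [SetLike.mem_coe, Submodule.mem_comap, cm_fgt D hu]
  exact cm_mem D _ _

theorem CM_fgt_left {β : Type} [Fintype β] {u : β → α} (hu : Injective u) {T : Set (κ → X)}
    {x : G I (α ⊕ κ)} (hx : x ∈ Cm D α T) :
    fgt (Sum.map u id) (hu.sumMap injective_id) x ∈ Cm D β (Set.univ : Set (κ → X)) := by
  rw [Cm_eq] at hx
  refine (Submodule.span_le (p := Submodule.comap _ (Cm D β Set.univ))).2 ?_ hx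
  rintro _ ⟨z, w, -, rfl⟩
  rw [SetLike.mem_coe, Submodule.mem_comap, cm_fgt_left D hu]
  exact cm_mem D _ _

theorem CM_split {u : κ → ι} (hu : Injective u) {T : Set (ι → X)} {B : Set (κ → X)}
    (h : ∀ y ∉ B, ∃ t ∈ T, t ∘ u = y) (W : Set (κ → X)) : Cm D α W ≤
      (Cm D α T).map (fgt (Sum.map id u) (injective_id.sumMap hu)) ⊔ Γ.Supp (snd α B) := by
  refine (Cm_eq D W).le.trans (Submodule.span_le.2 ?_)
  rintro _ ⟨z, w, -, rfl⟩
  have h1 := split (Γ := Γ) (T := prodT T Set.univ) (D := prodT B Set.univ)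
    (hu.sumMap (injective_id (α := Unit))) (fun y hy => by
      obtain ⟨t, h4, h5⟩ := h (y ∘ Sum.inl) fun e => hy ⟨e, trivial⟩
      refine ⟨Sum.elim t (y ∘ Sum.inr), ⟨h4, trivial⟩, funext ?_⟩
      rintro (a | a)
      exacts [congrFun h5 a, rfl]) w
  obtain ⟨_, ⟨w1, h2, rfl⟩, w2, h3, rfl⟩ := Submodule.mem_sup.1 h1
  rw [SetLike.mem_coe, map_add, ← cm_fgt D hu]
  exact Submodule.add_mem_sup (Submodule.mem_map_of_mem
    (Submodule.subset_span ⟨z, w1, h2, rfl⟩)) (cm_supp D z h3)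

/-- one stratum -/
theorem CM_step {μ : Type} [Fintype μ] {u : κ → ι} (hu : Injective u) {v : μ → ι}
    (hv : Injective v) {T : Set (ι → X)} {B : Set (κ → X)} (h : ∀ y ∉ B, ∃ t ∈ T, t ∘ u = y)
    (bd : ∀ x ∈ Γ.Supp (snd α T),
      fgt (Sum.map id u) (injective_id.sumMap hu) x ∈ Γ.Supp (snd α B) →
      fgt (Sum.map id v) (injective_id.sumMap hv) x ∈ Cm D α (Set.univ : Set (μ → X)))
    {x : G I (α ⊕ ι)} (hx : x ∈ Γ.Supp (snd α T)) {W : Set (κ → X)}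
    (h0 : fgt (Sum.map id u) (injective_id.sumMap hu) x ∈ Cm D α W) :
    fgt (Sum.map id v) (injective_id.sumMap hv) x ∈ Cm D α (Set.univ : Set (μ → X)) := by
  obtain ⟨_, ⟨y, hy, rfl⟩, d, hd, e⟩ := Submodule.mem_sup.1 (CM_split D hu h W h0)
  have h1 := bd (x - y) (sub_mem hx (CM_supp D T hy)) (by
    rw [map_sub, ← e, add_sub_cancel_left]
    exact hd)
  rw [← sub_add_cancel x y, map_add]
  exact add_mem h1 (CM_fgt D hv hy)

/-- classes over the set where a retraction is the identity -/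
theorem CM_of_graph {ρ : (κ → X) → κ → X} (hρ : Γ.RegM ρ) {P : Set (κ → X)} (hP : Γ.Cl P)
    (e : ∀ y ∈ P, ρ y = y)
    (H : ∀ z : G I (α ⊕ κ), ∃ T, Γ.pushM (fun t => Sum.elim t (ρ (t ∘ Sum.inr))) z ∈
      Cm D (α ⊕ κ) T) {x : G I (α ⊕ κ)} (hx : x ∈ Γ.Supp (snd α P)) :
    x ∈ Cm D α (Set.univ : Set (κ → X)) := by
  obtain ⟨T, h⟩ := H x
  have h1 := CM_fgt_left D (Sum.inl_injective (α := α) (β := κ)) h
  have r1 : Γ.RegM fun t : α ⊕ κ → X => Sum.elim t (ρ (t ∘ Sum.inr)) :=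
    RegM.elim (Γ.regM_rm id) (hρ.comp (Γ.regM_rm _))
  rw [← Γ.pushM_rm, Γ.pushM_comp r1 (Γ.regM_rm _)] at h1
  have r2 := (Γ.regM_rm (Sum.map Sum.inl id : α ⊕ κ → (α ⊕ κ) ⊕ κ)).comp r1
  refine (congrArg (· ∈ _) ?_).mp h1
  refine (Γ.supp_ext (hP.snd α) (F' := Γ.pushM fun t => t) (fun Z n hZ => ?_) hx).trans
    (Γ.pushM_id x)
  have r3 : Γ.RegM fun t : α ⊕ κ → X => t := Γ.regM_rm id
  rw [Γ.pushM_cT r2, Γ.pushM_cT r3, Set.image_congr fun t ht => ?_]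
  refine congrArg (Sum.elim t) (funext ?_)
  rintro (a | a)
  exacts [rfl, congrFun (e _ (hZ ht)) a]

variable {υ Y : Type} [Fintype υ] {J : Ideal (MvPolynomial υ k)} {Δ : Geo J Y} {u : υ → σ}
  {j : Y → X}

theorem pts_dense (hY : OPart Γ Δ u j) {W : Set (υ → k)} (hW : ∀ (a : k), ∀ y ∈ W, a • y ∈ W)
    (hJ : MvPolynomial.vanishingIdeal k W = J) :
    Γ.VI (pts Δ j W) ≤ Γ.VI (pts Δ j Set.univ) := by
  refine (Γ.grI_VI _).le_of_hom fun U d hU hm => (Γ.mem_VI hU).2 ?_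
  rintro _ ⟨y, -, rfl⟩
  obtain ⟨f, hf⟩ : ∃ f, blk () f = kl k Unit u U := ⟨MvPolynomial.rename Prod.snd _, by
    rw [MvPolynomial.rename_rename]
    exact MvPolynomial.rename_id_apply _⟩
  have h1 : ∀ (a : k) (y : Y), MvPolynomial.eval (a • Δ.p y) f =
      a ^ (d ()).toNat * Γ.ev (fun _ => j y) U := fun a y => by
    have := (Hg.kl hY.inj hU).eval_scale (fun _ => a) (fun v => Δ.p y v.2)
    rw [← hf, eval_blk, Fintype.prod_unique, hf] at this
    exact this.trans (congrArg _ ((Δ.gr_ev (fun _ => y) _).symm.trans (hY.ev_kl _ _)))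
  obtain ⟨l, hl⟩ := Function.ne_iff.1 (Δ.ne y)
  have h2 : MvPolynomial.X l * f ∈ J := hJ ▸ fun w hw => by
    by_cases h0 : w = 0
    · simp [h0]
    obtain ⟨y', a, ha, rfl⟩ := Δ.cl w (hJ ▸ fun g hg => hg w hw) h0
    have h3 := hW a⁻¹ _ hw
    rw [inv_smul_smul₀ ha.ne_zero] at h3
    rw [map_mul, MvPolynomial.aeval_eq_eval, h1,
      Γ.ev_of_VI hm ⟨y', h3, rfl⟩, mul_zero, mul_zero]
  rw [Δ.idl] at h2
  have h4 := mem_idl.1 h2 1 y
  rw [map_mul, h1, one_pow, one_mul, one_smul, MvPolynomial.eval_X] at h4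
  exact (mul_eq_zero.1 h4).resolve_left hl

variable {C s : κ → Type} [∀ i, Fintype (s i)] {L : ∀ i, Ideal (MvPolynomial (s i) k)}
  {Θ : ∀ i, Geo (L i) (C i)} {v : ∀ i, s i → σ} {jc : ∀ i, C i → X}

/-- all classes over a stratified part are compositions -/
theorem str_cm (hY : OPart Γ Δ u j) (hC : ∀ i, OPart Γ (Θ i) (v i) (jc i))
    [∀ i, Nonempty (C i)]
    (H : ∀ ψ : (α ⊕ κ → X) → κ → X, Γ.RegM ψ → (∀ t i, ψ t i ∈ Set.range (jc i)) →
      ∀ z, ∃ T, Γ.pushM (fun t => Sum.elim t (ψ t)) z ∈ Cm D (α ⊕ κ) T)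
    {W : Set (υ → k)} (h : Tav.Str (fun i (t : ∀ i, C i) => (Θ i).p (t i)) W)
    (hJ : MvPolynomial.vanishingIdeal k W = J) :
    Γ.Supp (snd α (pts Δ j Set.univ)) ≤ Cm D α (Set.univ : Set (Unit → X)) := by
  choose r hr rr using fun i => (hC i).exists_ret (Classical.arbitrary (C i))
  have hρ : Γ.RegM fun (t : κ → X) i => jc i (r i (t i)) := fun i => (hC i).regF_pad (rr i κ i)
  have hP : Γ.Cl {y : κ → X | ∀ i, y i ∈ Set.range (jc i)} := fun t ht i =>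
    (hC i).mem_part (fun _ (hs : ∀ i, _ ∈ Set.range (jc i)) => hs i) ht
  have h1 := str_ind (α := α) (U := Cm D α Set.univ) hY hC (fun T B _ a b c x hx =>
    CM_step D Sum.inl_injective Sum.inr_injective a c hx (CM_of_graph D hρ hP
      (fun y hy => funext fun i => by obtain ⟨z, hz⟩ := hy i; rw [← hz, hr])
      (H _ (hρ.comp (Γ.regM_rm _)) fun _ _ => ⟨_, rfl⟩)
      (snd_fgt (W := {y | ∀ i, y i ∈ Set.range (jc i)}) Sum.inl_injective b hx))) h
    (hJ ▸ fun w hw g hg => hg w hw)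
  refine le_trans ?_ h1
  have e : ∀ S : Set (Unit → X), snd α S = prodT Set.univ S := fun S =>
    Set.ext fun _ => ⟨fun h => ⟨trivial, h⟩, fun h => h.2⟩
  classical
  refine Sup_anti ?_
  rw [e, e, Γ.VI_prod, Γ.VI_prod]
  exact sup_le_sup_left (Ideal.map_mono (pts_dense hY (fun a _ hy => h.smul_mem a hy) hJ)) _

/-- the diagonal of a stratified part -/
theorem diag_cm {Q : ℕ} (E : AB Γ A Q) (nil : (E.E E.dif - 1) ^ (E.g + 1) = 0)
    (hY : OPart Γ Δ u j)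
    (h : Γ.Supp (snd Unit (pts Δ j Set.univ)) ≤ Cm E.toAG Unit (Set.univ : Set (Unit → X))) :
    Δ.cT {t | t (.inr ()) = t (.inl ())} 0 ∈ Submodule.span ℂ
      (Set.range fun s : G I U2 × G I U2 => hY.rst U2 (E.cmp s.1 s.2)) := by
  have h1 := h (Γ.cT_mem_supp (Z := (j ∘ ·) '' {t : U2 → Y | t (.inr ()) = t (.inl ())}) (by
    rintro _ ⟨t, -, rfl⟩
    exact ⟨t (.inr ()), trivial, rfl⟩) 0)
  have h2 := cm_push E nil (f := fun t => t ()) (f' := fun t => t ()) (Γ.regF_proj ())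
    (Γ.regF_proj ()) h1
  rw [show (fun t : U2 → X => (Sum.elim (fun _ => (t ∘ Sum.inl) ()) fun _ => (t ∘ Sum.inr) () :
    U2 → X)) = fun t => t from funext fun t => funext (by rintro (_ | _) <;> rfl),
    Γ.pushM_id, ← hY.ext_cT] at h2
  have h3 := Submodule.mem_map_of_mem (f := hY.rst U2) h2
  rwa [hY.rst_ext, Submodule.map_span, ← Set.range_comp] at h3

end Pool.Agent.Abt
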