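import Pool.Agent.P.MP_2ce3e7_ag.Abt.Core
import Pool.Agent.P.MP_2ce3e7_ag.Abt.Eig
import Pool.Agent.P.MP_2ce3e7_ag.Abt.Fn
import Pool.Agent.P.MP_2ce3e7_ag.Abt.Mk
import Pool.Agent.P.MP_dd457d_ag.Bcv.Union

/-! The graphs of the powers of the Frobenius map on a variety of abelian type. -/

set_option autoImplicit false

noncomputable section

namespace Pool.Agent.Abt

open Function Pool.Agent.Bav Pool.Agent.Bcv MvPolynomial

section
variable {k σ τ X Y : Type} [Field k] {I : Ideal (MvPolynomial σ k)}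
  {J : Ideal (MvPolynomial τ k)} {Γ : Geo I X} {Δ : Geo J Y} {u : τ → σ} {y : Y → X} {Q : ℕ}

/-- the power map keeps a part -/
theorem part_isFr (h : OPart Γ Δ u y) {F : X → X} (hF : Γ.IsFr Q F) :
    ∃ F', Δ.IsFr Q F' ∧ ∀ a, y (F' a) = F (y a) := by
  have key : ∀ a, F (y a) ∈ Set.range y := fun a => by
    by_contra e
    obtain ⟨c, hc, e1⟩ := hF (y a)
    obtain ⟨t, ht⟩ := Function.ne_iff.1 (Δ.ne a)
    have := congrFun e1 (u t)
    rw [h.poff _ e, Pi.smul_apply, Pi.pow_apply, h.p_on] at this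
    exact mul_ne_zero hc.ne_zero (pow_ne_zero _ ht) this.symm
  choose F' hF' using key
  refine ⟨F', fun a => (hF (y a)).imp fun c hc => ⟨hc.1, funext fun t => ?_⟩, hF'⟩
  have := congrFun hc.2 (u t)
  rwa [← hF', h.p_on, Pi.smul_apply, Pi.pow_apply, h.p_on] at this

variable [IsAlgClosed k] [Fintype σ] [Fintype τ]

theorem push_gr {F : Y → Y} (hF : Δ.IsFr Q F) :
    Δ.pushM (fun t : Unit → Y => Sum.elim t (F ∘ t)) (Δ.cT Set.univ 0) =
      Δ.cT {t | t (.inr ()) = F (t (.inl ()))} 0 := by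
  have h := (hF.regM (ι := Unit)).sec
  rw [h.pushM_eq, h.grs_cT, Geo.extend_inl, Sum.elim_zero_zero]
  refine congrArg (Δ.cT · 0) (Set.ext fun t => ⟨?_, fun ht => ⟨t ∘ Sum.inl, trivial, funext ?_⟩⟩)
  · rintro ⟨s, -, rfl⟩
    rfl
  · rintro (_ | _)
    exacts [rfl, ht.symm]

variable {A : Type} [AddCommGroup A]

theorem AB.ph_diag (D : AB Γ A Q) (h : OPart Γ Δ u y) (n : ℕ) :
    h.rst U2 (Γ.pushM (D.ph n) (h.ext U2 (Δ.cT {t | t (.inr ()) = t (.inl ())} 0))) =
      cy J (IX J U2 ⊔ Pav.gS τ k (Q ^ n)) 0 := by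
  obtain ⟨F, hF, e⟩ := part_isFr h D.isFr
  have e1 : ∀ a, y (F^[n] a) = D.fr^[n] (y a) := Semiconj.iterate_right e n
  have h1 := (hF.iter n).regM_right (ι := Unit) (κ := Unit)
  rw [← h.ext_pushM (ψ := D.ph n) h1 (D.isFr.iter n).regM_right fun t => funext (by
    rintro (_ | _)
    exacts [rfl, (e1 _).symm]), h.rst_ext, ← Pav.cT_graph Δ (hF.iter n), ← push_gr (hF.iter n)]
  refine (congrArg _ (push_gr Geo.isFr_id).symm).trans ?_
  rw [Δ.pushM_comp (Geo.isFr_id.regM (ι := Unit)).sec.reg h1]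
  rfl

/-- the classes whose Frobenius translates are sums of geometric sequences of the right kind -/
def AB.V (D : AB Γ A Q) : Submodule ℂ (G I U2) :=
  (SP (Bx I) Q).comap (LinearMap.pi fun n => Γ.pushM (D.ph n))

end

variable (k : Type) [Field k] [Fintype k]

theorem AB.cmp_mem {σ X A : Type} [Fintype σ] {I : Ideal (MvPolynomial σ (AlgebraicClosure k))}
    {Γ : Geo I X} [AddCommGroup A] {e : ℕ} (he : e ≠ 0) (D : AB Γ A (Fintype.card k ^ e))
    (z w : G I U2) : D.cmp z w ∈ D.V := by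
  refine (Submodule.span_le (p := D.V.comap
    (fgt out out_inj ∘ₗ ((D.E D.dif - 1) ^ D.g) ∘ₗ boxG z))).2 ?_ (eig_top k he D.isFr w)
  rintro w ⟨c, ⟨m, i, hm, hc⟩, hw⟩
  exact D.cmp_sp (pow_ne_zero _ Fintype.card_ne_zero) z hm hc hw

variable {Y τ : Type} [Fintype τ] {r : Y → τ → AlgebraicClosure k}

theorem dbo_of_abT (Δ : Geo (Tav.idl r) Y) (hΔ : Δ.p = r) (h : AbT r) :
    ∃ N ≠ 0, Pav.DBo (AlgebraicClosure k) (CXD.hom (Tav.idl r)) (CXD.crd (Tav.idl r))
      (Fintype.card k ^ N) := by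
  obtain ⟨A, υ, _, _, p, g, av, inj, H⟩ := h
  let Θ : Geo (Tav.idl p) A := ⟨p, av.ne, inj, rfl, av.cl⟩
  have hY := OPart.inl Δ Θ
  obtain ⟨e, he, D, hj, hg⟩ := exists_AB k av Θ rfl (OPart.inr Δ Θ)
  have hA : OPart (Δ.sum Θ) Θ Sum.inr D.j := hj ▸ OPart.inr Δ Θ
  have key : hY.ext U2 (Δ.cT {t | t (.inr ()) = t (.inl ())} 0) ∈ D.V := by
    refine (Subspace.forall_mem_dualAnnihilator_apply_eq_zero_iff _ _).1 fun φ hφ =>
      (Module.forall_dual_apply_eq_zero_iff ℚ _).1 fun l => ?_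
    have : FiniteDimensional (AlgebraicClosure k)
        (1 : Submodule (AlgebraicClosure k) (Y → AlgebraicClosure k)) := by
      rw [Submodule.one_eq_span]
      exact FiniteDimensional.span_singleton _ _
    obtain ⟨M, hM⟩ := exists_fn (J := Tav.idl r) (x := fun _ : U2 => r)
      (onX_of Δ.hom fun t _ f hf => by simpa using mem_idl.1 hf 1 t) 1
    rw [← fn_diag Δ (M := M) (by rwa [hΔ])]
    refine H (fun M => l (φ (hY.ext U2 (cls M)))) ⟨fun M N P f g hs => ?_, fun M hM => ?_⟩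
      (fun Z W => (fn_cls D hY hA Z W).mono fun d hd M hM => ?_) M hM
    · simp only [cls_ses hs, map_add]
    · simp only [cls_tors hM, map_zero]
    · have h1 := congrArg (fun x => l (φ x)) (D.alt d
        ((Δ.sum Θ).cT ((fun s => Sum.elim (fun _ => Sum.inl s.1) fun _ => D.j s.2) '' Z)
          (Sum.elim 0 fun _ => d))
        ((Δ.sum Θ).cT ((fun s => Sum.elim (fun _ => D.j s.1) fun _ => Sum.inl s.2) '' W)
          (Sum.elim (fun _ => d) 0)))
      simp only [map_sum, map_smul] at h1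
      rw [(Submodule.mem_dualAnnihilator φ).1 hφ _ (D.cmp_mem k he _ _), smul_zero, map_zero] at h1
      rw [← h1, hg]
      refine Finset.sum_congr rfl fun i _ => ?_
      rw [hd i (M i) (by rw [hΔ]; exact hM i), ← smul_eq_mul, ← map_smul, Rat.smul_def]
      push_cast
      rfl
  refine ⟨e, he, dbo_of_sp Δ.hom ?_⟩
  simp only [← D.ph_diag hY]
  exact SP.map (hY.rst U2) (Bx.map _ fun x y => by rw [hY.rst_box]; exact box_mem _ _) key

end Pool.Agent.Abt
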