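import Pool.Agent.P.MP_2ce3e7_ag.Abt.Mem

set_option autoImplicit false

namespace Pool.Agent.Abt.VariantParshin

open MvPolynomial Pool.Agent.Tav Pool.Agent.Abt Pool.Agent

section
variable (k : Type) [Field k] [Fintype k] {Y σ : Type} [Fintype σ]
  (r : Y → σ → AlgebraicClosure k) (hr : ∀ y, r y ≠ 0) (hi : ∀ y y', Par (r y) (r y') → y = y')
  (hc : ∀ z ∈ zeroLocus (AlgebraicClosure k) (idl r), z ≠ 0 → ∃ y, Par z (r y))

include hi in
/-- Abelian varieties are of abelian type. -/
theorem of_abelian [AddCommGroup Y] (g : ℕ) (h : AV r g) : AbT r := abT_of_av k h hi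

include hr hi hc

/-- Images of products of irreducible projective curves under regular maps are of abelian type. -/
theorem of_curves (n : ℕ) (T υ : Fin n → Type) [∀ i, Fintype (υ i)]
    (c : ∀ i, T i → υ i → AlgebraicClosure k) (c0 : ∀ i t, c i t ≠ 0)
    (c1 : ∀ i, ∀ z ∈ zeroLocus (AlgebraicClosure k) (idl (c i)), z ≠ 0 → ∃ t, Par z (c i t))
    (c2 : ∀ i, (idl (c i)).IsPrime) (c3 : ∀ i, (hp ![crd (c i)]).totalDegree = 1)
    (f : (∀ i, T i) → σ → AlgebraicClosure k) (f0 : ∀ t, f t ≠ 0)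
    (f1 : Rg (fun i => crd fun t : ∀ i, T i => c i (t i)) (crd f)) (e : idl f = idl r) : AbT r :=
  mem_cov k hr hi hc ⟨n, T, υ, inferInstance, c, f, fun i => ⟨c0 i, c1 i, c2 i, c3 i⟩, f0, f1, e⟩

/-- Diagonal hypersurfaces of degree prime to the characteristic are of abelian type. -/
theorem of_diagonal (m : ℕ) (hm : (m : AlgebraicClosure k) ≠ 0) (a : σ → AlgebraicClosure k)
    (ha : ∀ l, a l ≠ 0)
    (e : idl r = vanishingIdeal (AlgebraicClosure k) {y | ∑ l, a l * y l ^ m = 0}) : AbT r :=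
  mem_diag k hr hi hc hm ha e

end

/-- Vector bundles on the product of a variety of abelian type over a finite field with the
boundary of a simplex are torsion modulo the relations. -/
theorem result (k : Type) [Field k] [Fintype k] {Y σ : Type} [Fintype σ]
    (J : Ideal (MvPolynomial σ k)) (r : Y → σ → AlgebraicClosure k) (hr : ∀ y, r y ≠ 0)
    (hi : ∀ y y', Par (r y) (r y') → y = y')
    (hc : ∀ z ∈ zeroLocus (AlgebraicClosure k) (idl r), z ≠ 0 → ∃ y, Par z (r y))
    (hJ : idl r = J.map (map (algebraMap k (AlgebraicClosure k)))) (h : AbT r)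
    (s : ℕ) (hs : 0 < s) : CXD.Par k (CXD.Sph k s) (CXD.hom J) (CXD.crd J) :=
  have _ := And.intro @of_abelian (And.intro @of_curves @of_diagonal)
  (main k J r hr hi hc hJ h).2.2 s hs

end Pool.Agent.Abt.VariantParshin
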